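import Pool.Agent.BrentiBulk.Tilt2

/-!
# Decay of the characteristic function
-/

set_option autoImplicit false

noncomputable section

namespace Pool.Agent.BrentiBulk

open MeasureTheory intervalIntegral Set Filter Topology

theorem Z_closed {θ : ℝ} (hθ : θ ≠ 0) : Z θ = (Real.exp θ - 1) / θ := by
  have h1 := ftcE θ (fun _ => 1) (fun _ => 0) (fun u => hasDerivAt_const u 1) continuous_const
  rw [E_const, E_const] at h1
  rw [eq_div_iff hθ]
  linarith

theorem mu_closed (θ : ℝ) : (1 + θ * mu θ) * Z θ = Real.exp θ := by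
  have h1 := ftcE θ (fun u => u) (fun _ => 1) (fun u => hasDerivAt_id' u) continuous_const
  rw [E_const] at h1
  change (1 + θ * mu θ) * Z θ = 1 * Real.exp θ - 0 at h1
  linarith

theorem sq_closed (θ : ℝ) : (2 * mu θ + θ * E θ fun u => u ^ 2) * Z θ = Real.exp θ := by
  have h1 := ftcE θ (fun u => u ^ 2) (fun u => 2 * u) (fun u => by
    have := hasDerivAt_pow 2 u
    simpa using this) (by fun_prop)
  rw [E_smul] at h1
  change (2 * mu θ + _) * Z θ = _ at h1
  rw [h1]
  ring

theorem va_closed {θ : ℝ} (hθ : θ ≠ 0) :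
    va θ = 1 / θ ^ 2 - Real.exp θ / (Real.exp θ - 1) ^ 2 := by
  have hZ := Z_closed hθ
  have hm := mu_closed θ
  have hs := sq_closed θ
  have he : Real.exp θ - 1 ≠ 0 := by
    intro h
    rw [h, zero_div] at hZ
    exact Z_ne θ hZ
  rw [va_eq]
  rw [hZ] at hm hs
  have hm' : mu θ = Real.exp θ / (Real.exp θ - 1) - 1 / θ := by
    field_simp at hm ⊢
    linarith
  have hs' : (E θ fun u => u ^ 2) = Real.exp θ / (Real.exp θ - 1) - 2 * mu θ / θ := by
    field_simp at hs ⊢
    linarith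
  rw [hs', hm']
  field_simp
  ring

theorem exp_integral (s : ℂ) : s * ∫ u in (0 : ℝ)..1, Complex.exp (s * u) = Complex.exp s - 1 := by
  by_cases hs : s = 0
  · subst hs
    simp
  · have h := integral_exp_mul_complex (a := 0) (b := 1) (c := s) hs
    rw [h]
    field_simp
    simp

theorem chi_integral (θ t : ℝ) :
    chi θ t * (Z θ : ℂ) = ∫ u in (0 : ℝ)..1, Complex.exp (((θ : ℂ) + Complex.I * t) * u) := by
  have hZ : (Z θ : ℂ) ≠ 0 := by exact_mod_cast Z_ne θ
  unfold chi Ec
  rw [div_mul_cancel₀ _ hZ]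
  congr 1
  funext u
  rw [Complex.ofReal_exp, ← Complex.exp_add]
  congr 1
  push_cast
  ring

theorem chi_closed (θ t : ℝ) :
    ((θ : ℂ) + Complex.I * t) * (chi θ t * (Z θ : ℂ)) =
      Complex.exp ((θ : ℂ) + Complex.I * t) - 1 := by
  rw [chi_integral, exp_integral]

theorem normSq_exp_sub_one (θ t : ℝ) :
    ‖Complex.exp ((θ : ℂ) + Complex.I * t) - 1‖ ^ 2 =
      (Real.exp θ - 1) ^ 2 + 4 * Real.exp θ * Real.sin (t / 2) ^ 2 := by
  rw [← Complex.normSq_eq_norm_sq, Complex.normSq_apply]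
  have h1 : (Complex.exp ((θ : ℂ) + Complex.I * t)).re = Real.exp θ * Real.cos t := by
    rw [Complex.exp_re]
    simp
  have h2 : (Complex.exp ((θ : ℂ) + Complex.I * t)).im = Real.exp θ * Real.sin t := by
    rw [Complex.exp_im]
    simp
  rw [Complex.sub_re, Complex.sub_im, h1, h2, Complex.one_re, Complex.one_im]
  have h3 : Real.cos t = 1 - 2 * Real.sin (t / 2) ^ 2 := by
    have h4 := Real.cos_two_mul (t / 2)
    have h5 := Real.sin_sq_add_cos_sq (t / 2)
    rw [show 2 * (t / 2) = t by ring] at h4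
    linarith
  have h6 := Real.sin_sq_add_cos_sq t
  have h7 : (Real.exp θ * Real.cos t - 1) * (Real.exp θ * Real.cos t - 1) +
      (Real.exp θ * Real.sin t - 0) * (Real.exp θ * Real.sin t - 0) =
      Real.exp θ ^ 2 * (Real.sin t ^ 2 + Real.cos t ^ 2) - 2 * Real.exp θ * Real.cos t + 1 := by ring
  rw [h7, h6, h3]
  ring

/-- Main decay estimate. -/
theorem chi_decay (θ t : ℝ) : ‖chi θ t‖ ^ 2 * (1 + va θ * t ^ 2 / 10) ≤ 1 := by
  have hv := va_le θ
  have hv0 := va_nonneg θ
  have hsin := sinc_ineq (t / 2)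
  set τ := Real.sin (t / 2) ^ 2 with hτ
  have hτ0 : 0 ≤ τ := sq_nonneg _
  have hc := chi_closed θ t
  have hn : ‖(θ : ℂ) + Complex.I * t‖ ^ 2 = θ ^ 2 + t ^ 2 := by
    rw [← Complex.normSq_eq_norm_sq, Complex.normSq_apply]
    simp
    ring
  have hc2 : (θ ^ 2 + t ^ 2) * (‖chi θ t‖ ^ 2 * Z θ ^ 2) =
      (Real.exp θ - 1) ^ 2 + 4 * Real.exp θ * τ := by
    rw [← normSq_exp_sub_one, ← hc, norm_mul, norm_mul, mul_pow, mul_pow, hn, Complex.norm_real,
      Real.norm_of_nonneg (Z_pos θ).le]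
  set T := t ^ 2 with hT
  have hT0 : 0 ≤ T := sq_nonneg t
  have hτT : 4 * τ * (1 + T / 40) ≤ T := by
    have h1 : (t / 2) ^ 2 = T / 4 := by rw [hT]; ring
    rw [h1] at hsin
    nlinarith
  have hX0 : 0 ≤ ‖chi θ t‖ ^ 2 := sq_nonneg _
  set X := ‖chi θ t‖ ^ 2 with hX
  by_cases hθ : θ = 0
  · subst hθ
    have hZ : Z 0 = 1 := by
      unfold Z
      simp
    rw [hZ] at hc2
    simp only [Real.exp_zero, sub_self] at hc2
    by_cases hT1 : T = 0
    · have h1 : X ≤ 1 := by
        have := chi_norm 0 t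
        rw [hX]
        nlinarith [norm_nonneg (chi 0 t)]
      rw [hT1]
      simpa using h1
    · have hTp : 0 < T := lt_of_le_of_ne hT0 (Ne.symm hT1)
      have h1 : T * X = 4 * τ := by nlinarith
      have h2 : T * (X * (1 + va 0 * T / 10)) ≤ T * 1 := by
        calc T * (X * (1 + va 0 * T / 10)) = 4 * τ * (1 + va 0 * T / 10) := by rw [← h1]; ring
          _ ≤ 4 * τ * (1 + T / 40) := by
            refine mul_le_mul_of_nonneg_left ?_ (by positivity)
            nlinarith
          _ ≤ T := hτT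
          _ = T * 1 := (mul_one T).symm
      exact le_of_mul_le_mul_left h2 hTp
  · have hva := va_closed hθ
    have hZ := Z_closed hθ
    have he : Real.exp θ - 1 ≠ 0 := by
      intro h
      rw [h, zero_div] at hZ
      exact Z_ne θ hZ
    have he2 : 0 < (Real.exp θ - 1) ^ 2 := by positivity
    have hθ2 : 0 < θ ^ 2 := by positivity
    set A := Real.exp θ / (Real.exp θ - 1) ^ 2 with hA
    have hA0 : 0 ≤ A := div_nonneg (Real.exp_pos θ).le he2.le
    have h1 : (1 + T / θ ^ 2) * X = 1 + 4 * A * τ := by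
      rw [hZ, div_pow] at hc2
      rw [hA]
      field_simp at hc2 ⊢
      linarith
    have h2 : 1 / θ ^ 2 = A + va θ := by linarith
    have h3 : (1 + (A + va θ) * T) * X = 1 + 4 * A * τ := by
      rw [← h1, ← h2]
      ring
    set v := va θ with hvdef
    have h4 : (1 + 4 * A * τ) * (1 + v * T / 10) ≤ 1 + (A + v) * T := by
      have h5 : 4 * A * τ * (1 + v * T / 10) ≤ A * T := by
        have h6 : 1 + v * T / 10 ≤ 1 + T / 40 := by nlinarith
        calc 4 * A * τ * (1 + v * T / 10) ≤ 4 * A * τ * (1 + T / 40) :=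
              mul_le_mul_of_nonneg_left h6 (by positivity)
          _ = A * (4 * τ * (1 + T / 40)) := by ring
          _ ≤ A * T := mul_le_mul_of_nonneg_left hτT hA0
      nlinarith [mul_nonneg hv0 hT0]
    have hpos : 0 < 1 + (A + v) * T := by positivity
    have h5 : (1 + (A + v) * T) * (X * (1 + v * T / 10)) ≤ (1 + (A + v) * T) * 1 := by
      calc (1 + (A + v) * T) * (X * (1 + v * T / 10)) =
            ((1 + (A + v) * T) * X) * (1 + v * T / 10) := by ring
        _ = (1 + 4 * A * τ) * (1 + v * T / 10) := by rw [h3]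
        _ ≤ 1 + (A + v) * T := h4
        _ = (1 + (A + v) * T) * 1 := (mul_one _).symm
    exact le_of_mul_le_mul_left h5 hpos

end Pool.Agent.BrentiBulk
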