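import Pool.Agent.BrentiBulk.Gauss
import Pool.Agent.BrentiBulk.Tilt3

/-!
# The local limit of the rescaled integrals
-/

set_option autoImplicit false

noncomputable section

namespace Pool.Agent.BrentiBulk

open MeasureTheory Set Filter Topology

theorem mu_pos (θ : ℝ) : 0 < mu θ := by
  unfold mu E
  refine div_pos ?_ (Z_pos θ)
  exact intervalIntegral.intervalIntegral_pos_of_pos_on (by
    apply Continuous.intervalIntegrable
    fun_prop) (fun u hu => mul_pos hu.1 (Real.exp_pos _)) one_pos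

/-- The centred characteristic function. -/
def en (θ t : ℝ) : ℂ := chi θ t * Complex.exp (Complex.I * (-(t * mu θ) : ℝ))

theorem en_norm (θ t : ℝ) : ‖en θ t‖ = ‖chi θ t‖ := by
  unfold en
  rw [norm_mul, Complex.norm_exp_I_mul_ofReal, mul_one]

/-- The rescaled integrand. -/
def Cf (N : ℕ) (θ r : ℝ) (i j : ℕ) (s : ℝ) : ℂ :=
  ((r : ℂ) * (chi θ (s / r) - 1) / (mu θ : ℂ)) ^ i *
    ((r : ℂ) * (Complex.exp (Complex.I * ((-(s / r) : ℝ) : ℂ)) - 1)) ^ j * en θ (s / r) ^ N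

theorem pow_sub_pow_le (z w : ℂ) (hz : ‖z‖ ≤ 1) (hw : ‖w‖ ≤ 1) (N : ℕ) :
    ‖z ^ N - w ^ N‖ ≤ N * ‖z - w‖ := by
  induction N with
  | zero => simp
  | succ N ih =>
    have h1 : z ^ (N + 1) - w ^ (N + 1) = z ^ N * (z - w) + (z ^ N - w ^ N) * w := by ring
    rw [h1]
    refine (norm_add_le _ _).trans ?_
    rw [norm_mul, norm_mul, norm_pow]
    have h2 : ‖z‖ ^ N ≤ 1 := pow_le_one₀ (norm_nonneg _) hz
    have h3 := norm_nonneg (z - w)
    have h4 := norm_nonneg (z ^ N - w ^ N)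
    have h5 := norm_nonneg w
    push_cast
    nlinarith

theorem exp_neg_rem (x : ℝ) (hx : 0 ≤ x) : |1 - x - Real.exp (-x)| ≤ x ^ 2 := by
  rcases le_total x 1 with h | h
  · have h1 := Real.abs_exp_sub_one_sub_id_le (x := -x) (by rw [abs_neg, abs_of_nonneg hx]; exact h)
    rw [abs_sub_comm] at h1
    have h2 : Real.exp (-x) - 1 - -x = -(1 - x - Real.exp (-x)) := by ring
    rw [abs_sub_comm, h2, abs_neg] at h1
    simpa using h1
  · have h1 := Real.exp_pos (-x)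
    have h2 : Real.exp (-x) ≤ 1 := Real.exp_le_one_iff.2 (by linarith)
    rw [abs_le]
    constructor <;> nlinarith

section pointwise

variable {N : ℕ} {θ r : ℝ}

theorem row_lim (hr : 0 < r) (s : ℝ) :
    ‖(r : ℂ) * (chi θ (s / r) - 1) / (mu θ : ℂ) - Complex.I * s‖ ≤ 3 * s ^ 2 / r := by
  have hm := mu_pos θ
  have h1 := chi_rem2 θ (s / r)
  have hmc : (mu θ : ℂ) ≠ 0 := by exact_mod_cast hm.ne'
  have hrc : (r : ℂ) ≠ 0 := by exact_mod_cast hr.ne'
  have h2 : (r : ℂ) * (chi θ (s / r) - 1) / (mu θ : ℂ) - Complex.I * s =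
      (r / mu θ : ℝ) * (chi θ (s / r) - 1 - Complex.I * (s / r * mu θ : ℝ)) := by
    push_cast
    field_simp
  rw [h2, norm_mul, Complex.norm_real, Real.norm_of_nonneg (by positivity)]
  calc r / mu θ * ‖chi θ (s / r) - 1 - Complex.I * (s / r * mu θ : ℝ)‖ ≤
        r / mu θ * (3 * (s / r) ^ 2 * mu θ) := mul_le_mul_of_nonneg_left h1 (by positivity)
    _ = 3 * s ^ 2 / r := by
        field_simp

theorem col_lim (hr : 0 < r) (s : ℝ) :
    ‖(r : ℂ) * (Complex.exp (Complex.I * ((-(s / r) : ℝ) : ℂ)) - 1) - -Complex.I * s‖ ≤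
      3 * s ^ 2 / r := by
  have h1 := exp_rem2 (-(s / r))
  have hrc : (r : ℂ) ≠ 0 := by exact_mod_cast hr.ne'
  have h2 : (r : ℂ) * (Complex.exp (Complex.I * ((-(s / r) : ℝ) : ℂ)) - 1) - -Complex.I * s =
      (r : ℝ) * (Complex.exp (Complex.I * ((-(s / r) : ℝ) : ℂ)) - 1 -
        Complex.I * ((-(s / r) : ℝ) : ℂ)) := by
    push_cast
    field_simp
  rw [h2, norm_mul, Complex.norm_real, Real.norm_of_nonneg hr.le]
  calc r * ‖Complex.exp (Complex.I * ((-(s / r) : ℝ) : ℂ)) - 1 -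
        Complex.I * ((-(s / r) : ℝ) : ℂ)‖ ≤ r * (3 * (-(s / r)) ^ 2) :=
        mul_le_mul_of_nonneg_left h1 hr.le
    _ = 3 * s ^ 2 / r := by
        field_simp

theorem en_lim (hr : 0 < r) (hV : r ^ 2 = N * va θ) (s : ℝ) :
    ‖en θ (s / r) ^ N - (Real.exp (-(s ^ 2 / 2)) : ℂ)‖ ≤ 4 * |s| ^ 3 / r + s ^ 4 / (16 * r ^ 2) := by
  have hv := va_le θ
  have hv0 := va_nonneg θ
  have hN : (0 : ℝ) < N := by
    rcases Nat.eq_zero_or_pos N with h | h
    · rw [h] at hV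
      simp only [CharP.cast_eq_zero, zero_mul] at hV
      have := pow_pos hr 2
      linarith
    · exact_mod_cast h
  have hvp : 0 < va θ := by
    rcases hv0.lt_or_eq with h | h
    · exact h
    · rw [← h, mul_zero] at hV
      have := pow_pos hr 2
      linarith
  have hN4 : 4 * r ^ 2 ≤ N := by nlinarith
  set x : ℝ := (s / r) ^ 2 * va θ / 2 with hx
  have hx0 : 0 ≤ x := by positivity
  have hNx : (N : ℝ) * x = s ^ 2 / 2 := by
    have h1 : (N : ℝ) * x = s ^ 2 / r ^ 2 * (N * va θ) / 2 := by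
      rw [hx, div_pow]
      ring
    rw [h1, ← hV]
    field_simp
  have h1 : (Real.exp (-(s ^ 2 / 2)) : ℂ) = ((Real.exp (-x) : ℝ) : ℂ) ^ N := by
    rw [← hNx, ← Complex.ofReal_pow, ← Real.exp_nat_mul]
    congr 2
    ring
  rw [h1]
  have h2 : ‖((Real.exp (-x) : ℝ) : ℂ)‖ ≤ 1 := by
    rw [Complex.norm_real, Real.norm_of_nonneg (Real.exp_pos _).le]
    exact Real.exp_le_one_iff.2 (by linarith)
  refine (pow_sub_pow_le _ _ (by rw [en_norm]; exact chi_norm θ _) h2 N).trans ?_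
  have h3 := chi_rem3 θ (s / r)
  have h4 := exp_neg_rem x hx0
  have h5 : ‖en θ (s / r) - ((Real.exp (-x) : ℝ) : ℂ)‖ ≤ 4 * |s / r| ^ 3 * va θ + x ^ 2 := by
    have h6 : en θ (s / r) - ((Real.exp (-x) : ℝ) : ℂ) =
        (en θ (s / r) - (1 - (x : ℝ))) + ((1 - x - Real.exp (-x) : ℝ) : ℂ) := by
      push_cast
      ring
    rw [h6]
    refine (norm_add_le _ _).trans (add_le_add h3 ?_)
    rw [Complex.norm_real]
    exact h4
  calc (N : ℝ) * ‖en θ (s / r) - ((Real.exp (-x) : ℝ) : ℂ)‖ ≤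
        N * (4 * |s / r| ^ 3 * va θ + x ^ 2) := mul_le_mul_of_nonneg_left h5 hN.le
    _ = 4 * |s| ^ 3 / r + s ^ 4 / (4 * N) := by
        rw [abs_div, abs_of_pos hr]
        have h7 : (N : ℝ) * x ^ 2 = s ^ 4 / (4 * N) := by
          have : x = s ^ 2 / 2 / N := by
            rw [eq_div_iff hN.ne', mul_comm]
            exact hNx
          rw [this]
          field_simp
          ring
        have h8 : (N : ℝ) * (4 * (|s| / r) ^ 3 * va θ) = 4 * |s| ^ 3 / r := by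
          have h9 : (N : ℝ) * (4 * (|s| / r) ^ 3 * va θ) = 4 * |s| ^ 3 / r ^ 3 * (N * va θ) := by
            rw [div_pow]
            ring
          rw [h9, ← hV]
          field_simp
        rw [mul_add, h7, h8]
    _ ≤ _ := by
        refine add_le_add le_rfl ?_
        refine div_le_div_of_nonneg_left (by positivity) (by positivity) (by linarith)

end pointwise

/-! ### domination -/

theorem chi_pow_le {N : ℕ} {θ r : ℝ} (hr : 0 < r) (hV : r ^ 2 = N * va θ) (K : ℕ) (hK : 1 ≤ K)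
    (hN : 2 * K ≤ N) (s : ℝ) :
    ‖chi θ (s / r)‖ ^ N ≤ (40 * K) ^ K * ((1 + s ^ 2)⁻¹) ^ K := by
  have hN0 : (0 : ℝ) < N := by exact_mod_cast (by omega : 0 < N)
  have hvp : 0 < va θ := by
    rcases (va_nonneg θ).lt_or_eq with h | h
    · exact h
    · rw [← h, mul_zero] at hV
      have := pow_pos hr 2
      linarith
  set q := N / (2 * K) with hq
  have hq1 : 1 ≤ q := (Nat.le_div_iff_mul_le (by omega)).2 (by omega)
  have hq2 : q * (2 * K) ≤ N := Nat.div_mul_le_self _ _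
  have hq3 : N ≤ 4 * K * q := by
    have h1 := Nat.lt_div_mul_add (a := N) (b := 2 * K) (by omega)
    rw [← hq] at h1
    nlinarith
  have hc := chi_norm θ (s / r)
  have hd := chi_decay θ (s / r)
  have hy : va θ * (s / r) ^ 2 / 10 = s ^ 2 / 10 / N := by
    rw [div_pow, hV]
    field_simp
  rw [hy] at hd
  set y : ℝ := s ^ 2 / 10 with hydef
  have hy0 : 0 ≤ y := by positivity
  have hK0 : (0 : ℝ) < K := by exact_mod_cast hK
  have h1 : 1 + y / (4 * K) ≤ (1 + y / N) ^ q := by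
    have h2 := one_add_mul_le_pow (a := y / N) (by
      have : 0 ≤ y / N := by positivity
      linarith) q
    refine le_trans ?_ h2
    have h3 : y / (4 * K) ≤ q * (y / N) := by
      rw [mul_div_assoc', div_le_div_iff₀ (by positivity) hN0]
      have h4 : (N : ℝ) ≤ 4 * K * q := by exact_mod_cast hq3
      nlinarith
    linarith
  have h2 : ‖chi θ (s / r)‖ ^ 2 ≤ (1 + y / N)⁻¹ := by
    rw [← one_div, le_div_iff₀ (by positivity)]
    exact hd
  calc ‖chi θ (s / r)‖ ^ N ≤ ‖chi θ (s / r)‖ ^ (q * (2 * K)) :=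
        pow_le_pow_of_le_one (norm_nonneg _) hc hq2
    _ = ((‖chi θ (s / r)‖ ^ 2) ^ q) ^ K := by
        rw [← pow_mul, ← pow_mul]
        congr 1
        ring
    _ ≤ (((1 + y / N)⁻¹) ^ q) ^ K := by gcongr
    _ = (((1 + y / N) ^ q)⁻¹) ^ K := by rw [inv_pow]
    _ ≤ ((1 + y / (4 * K))⁻¹) ^ K := by gcongr
    _ ≤ (40 * K * (1 + s ^ 2)⁻¹) ^ K := by
        refine pow_le_pow_left₀ (by positivity) ?_ K
        rw [← div_eq_mul_inv, ← one_div, div_le_div_iff₀ (by positivity) (by positivity)]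
        have hK1 : (1 : ℝ) ≤ K := by exact_mod_cast hK
        have h5 : 40 * (K : ℝ) * (1 + y / (4 * K)) = 40 * K + s ^ 2 := by
          rw [hydef]
          field_simp
          ring
        rw [h5]
        nlinarith
    _ = (40 * K) ^ K * ((1 + s ^ 2)⁻¹) ^ K := by rw [mul_pow]

theorem Cf_bound {N : ℕ} {θ r : ℝ} (hr : 0 < r) (hV : r ^ 2 = N * va θ) (m : ℕ)
    (hN : 2 * (2 * m + 1) ≤ N) (i j : ℕ) (hi : i ≤ m) (hj : j ≤ m) (s : ℝ) :
    ‖Cf N θ r i j s‖ ≤ (40 * ((2 * m + 1 : ℕ) : ℝ)) ^ (2 * m + 1) * (1 + s ^ 2)⁻¹ := by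
  have hm := mu_pos θ
  have h1 : ‖(r : ℂ) * (chi θ (s / r) - 1) / (mu θ : ℂ)‖ ≤ |s| := by
    rw [norm_div, norm_mul, Complex.norm_real, Complex.norm_real, Real.norm_of_nonneg hr.le,
      Real.norm_of_nonneg hm.le, div_le_iff₀ hm]
    have h2 := chi_sub_one θ (s / r)
    calc r * ‖chi θ (s / r) - 1‖ ≤ r * (|s / r| * mu θ) := mul_le_mul_of_nonneg_left h2 hr.le
      _ = |s| * mu θ := by
        rw [abs_div, abs_of_pos hr]
        field_simp
  have h2 : ‖(r : ℂ) * (Complex.exp (Complex.I * ((-(s / r) : ℝ) : ℂ)) - 1)‖ ≤ |s| := by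
    rw [norm_mul, Complex.norm_real, Real.norm_of_nonneg hr.le]
    have h3 := Real.norm_exp_I_mul_ofReal_sub_one_le (x := -(s / r))
    calc r * ‖Complex.exp (Complex.I * ((-(s / r) : ℝ) : ℂ)) - 1‖ ≤ r * ‖-(s / r)‖ :=
          mul_le_mul_of_nonneg_left h3 hr.le
      _ = |s| := by
        rw [norm_neg, Real.norm_eq_abs, abs_div, abs_of_pos hr]
        field_simp
  have hs : |s| ≤ 1 + s ^ 2 := by
    rw [← sq_abs]
    nlinarith [sq_nonneg (|s| - 1), abs_nonneg s]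
  have hs1 : (1 : ℝ) ≤ 1 + s ^ 2 := by nlinarith [sq_nonneg s]
  have h3 : ∀ i ≤ m, |s| ^ i ≤ (1 + s ^ 2) ^ m := fun i hi =>
    (pow_le_pow_left₀ (abs_nonneg s) hs i).trans (pow_le_pow_right₀ hs1 hi)
  unfold Cf
  rw [norm_mul, norm_mul, norm_pow, norm_pow, norm_pow, en_norm]
  have h4 := chi_pow_le hr hV (2 * m + 1) (by omega) hN s
  calc ‖(r : ℂ) * (chi θ (s / r) - 1) / (mu θ : ℂ)‖ ^ i *
        ‖(r : ℂ) * (Complex.exp (Complex.I * ((-(s / r) : ℝ) : ℂ)) - 1)‖ ^ j *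
        ‖chi θ (s / r)‖ ^ N ≤ (1 + s ^ 2) ^ m * (1 + s ^ 2) ^ m *
        ((40 * ((2 * m + 1 : ℕ) : ℝ)) ^ (2 * m + 1) * ((1 + s ^ 2)⁻¹) ^ (2 * m + 1)) := by
        have h5 := (pow_le_pow_left₀ (norm_nonneg _) h1 i).trans (h3 i hi)
        have h6 := (pow_le_pow_left₀ (norm_nonneg _) h2 j).trans (h3 j hj)
        gcongr
    _ = (40 * ((2 * m + 1 : ℕ) : ℝ)) ^ (2 * m + 1) * (((1 + s ^ 2) * (1 + s ^ 2)⁻¹) ^ (2 * m)) *
        (1 + s ^ 2)⁻¹ := by
        rw [mul_pow (1 + s ^ 2) ((1 + s ^ 2)⁻¹), pow_succ ((1 + s ^ 2)⁻¹) (2 * m),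
          two_mul m, pow_add (1 + s ^ 2) m m]
        generalize (40 * ((m + m + 1 : ℕ) : ℝ)) ^ (m + m + 1) = a
        generalize ((1 + s ^ 2)⁻¹) ^ (m + m) = b
        ring
    _ = _ := by
        rw [mul_inv_cancel₀ (by positivity), one_pow, mul_one]

theorem continuous_chi (θ : ℝ) : Continuous (chi θ) := by
  unfold chi Ec
  refine Continuous.div_const ?_ _
  exact intervalIntegral.continuous_parametric_intervalIntegral_of_continuous'
    (by fun_prop) _ _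

theorem continuous_Cf (N : ℕ) (θ r : ℝ) (i j : ℕ) : Continuous (Cf N θ r i j) := by
  unfold Cf en
  have := continuous_chi θ
  fun_prop

theorem tendsto_Cf (m : ℕ) (N : ℕ → ℕ) (θ r : ℕ → ℝ) (hr : ∀ l, 0 < r l)
    (hV : ∀ l, r l ^ 2 = N l * va (θ l)) (ht : Tendsto r atTop atTop) (i j : ℕ)
    (hi : i ≤ m) (hj : j ≤ m) :
    Tendsto (fun l => ∫ s, Cf (N l) (θ l) (r l) i j s) atTop
      (𝓝 (Complex.I ^ i * (-Complex.I) ^ j * (G (i + j) : ℂ))) := by
  have hG : Complex.I ^ i * (-Complex.I) ^ j * (G (i + j) : ℂ) =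
      ∫ s : ℝ, (Complex.I * s) ^ i * (-Complex.I * s) ^ j * (Real.exp (-(s ^ 2 / 2)) : ℂ) := by
    unfold G
    have h0 : ((∫ s : ℝ, s ^ (i + j) * Real.exp (-(s ^ 2 / 2)) : ℝ) : ℂ) =
        ∫ s : ℝ, ((s ^ (i + j) * Real.exp (-(s ^ 2 / 2)) : ℝ) : ℂ) := integral_ofReal.symm
    rw [h0, ← integral_const_mul]
    congr 1
    funext s
    push_cast
    rw [mul_pow, mul_pow, pow_add]
    ring
  rw [hG]
  have hinv : Tendsto (fun l => (r l)⁻¹) atTop (𝓝 0) := tendsto_inv_atTop_zero.comp ht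
  have hlim0 : ∀ (c : ℝ) (f : ℕ → ℂ) (a : ℂ), (∀ l, ‖f l - a‖ ≤ c / r l) →
      Tendsto f atTop (𝓝 a) := by
    intro c f a h
    rw [tendsto_iff_norm_sub_tendsto_zero]
    refine squeeze_zero (fun l => norm_nonneg _) h ?_
    have := hinv.const_mul c
    rw [mul_zero] at this
    exact this
  refine tendsto_integral_filter_of_dominated_convergence
    (fun s => (40 * ((2 * m + 1 : ℕ) : ℝ)) ^ (2 * m + 1) * (1 + s ^ 2)⁻¹)
    (Eventually.of_forall fun l => (continuous_Cf _ _ _ _ _).aestronglyMeasurable) ?_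
    (integrable_inv_one_add_sq.const_mul _) (ae_of_all _ fun s => ?_)
  · have h1 : ∀ᶠ l in atTop, ((2 * m + 1 : ℕ) : ℝ) ≤ r l := ht.eventually_ge_atTop _
    filter_upwards [h1] with l hl
    refine ae_of_all _ fun s => Cf_bound (hr l) (hV l) m ?_ i j hi hj s
    have h2 := va_le (θ l)
    have h3 := hV l
    have h4 : (2 * ((2 * m + 1 : ℕ) : ℝ)) ≤ N l := by
      have h5 : (1 : ℝ) ≤ ((2 * m + 1 : ℕ) : ℝ) := by exact_mod_cast (by omega)
      have h6 : 4 * r l ^ 2 ≤ N l := by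
        have := Nat.cast_nonneg (α := ℝ) (N l)
        nlinarith
      nlinarith
    exact_mod_cast h4
  · unfold Cf
    refine Tendsto.mul (Tendsto.mul (Tendsto.pow ?_ i) (Tendsto.pow ?_ j)) ?_
    · exact hlim0 (3 * s ^ 2) _ _ fun l => row_lim (hr l) s
    · exact hlim0 (3 * s ^ 2) _ _ fun l => col_lim (hr l) s
    · rw [tendsto_iff_norm_sub_tendsto_zero]
      refine squeeze_zero (fun l => norm_nonneg _) (fun l => en_lim (hr l) (hV l) s) ?_
      have h1 := hinv.const_mul (4 * |s| ^ 3)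
      have h2 := (hinv.pow 2).const_mul (s ^ 4 / 16)
      have h3 := h1.add h2
      simp only [mul_zero, ne_eq, OfNat.ofNat_ne_zero, not_false_eq_true, zero_pow, add_zero] at h3
      refine h3.congr fun l => ?_
      have := (hr l).ne'
      field_simp

end Pool.Agent.BrentiBulk
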