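import Pool.Agent.BrentiBulk.Rep
import Pool.Agent.BrentiBulk.Limit

/-!
# The bulk: solid minors of the Eulerian triangle at large variance
-/

set_option autoImplicit false

noncomputable section

namespace Pool.Agent.BrentiBulk

open MeasureTheory Set Filter Topology Pool.Agent.BrentiRegion

/-! ### the change of basis -/

/-- The binomial matrix. -/
def Pb (m : ℕ) : Matrix (Fin m) (Fin m) ℂ :=
  Matrix.of fun i a => (-1) ^ ((i : ℕ) - (a : ℕ)) * ((Nat.choose i a : ℕ) : ℂ)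

theorem Pb_det (m : ℕ) : (Pb m).det = 1 := by
  have h : (Pb m).IsLowerTriangular := by
    intro i j hij
    have hij' : (i : ℕ) < j := hij
    unfold Pb
    rw [Matrix.of_apply, Nat.choose_eq_zero_of_lt hij', Nat.cast_zero, mul_zero]
  rw [Matrix.det_of_isLowerTriangular _ h]
  refine Finset.prod_eq_one fun i _ => ?_
  unfold Pb
  simp

theorem Pb_pow (m : ℕ) (x : ℂ) (i : Fin m) :
    (x - 1) ^ (i : ℕ) = ∑ a : Fin m, Pb m i a * x ^ (a : ℕ) := by
  have h0 : ∑ a : Fin m, Pb m i a * x ^ (a : ℕ) =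
      ∑ a ∈ Finset.range m, (-1) ^ ((i : ℕ) - a) * ((Nat.choose i a : ℕ) : ℂ) * x ^ a :=
    (Finset.sum_range fun a => (-1) ^ ((i : ℕ) - a) * ((Nat.choose i a : ℕ) : ℂ) * x ^ a).symm
  rw [h0, sub_eq_add_neg, add_pow]
  have hi := i.2
  rw [← Finset.sum_subset (Finset.range_subset_range.2 (show (i : ℕ) + 1 ≤ m by omega))]
  · refine Finset.sum_congr rfl fun a _ => ?_
    ring
  · intro a _ ha
    rw [Finset.mem_range, not_lt] at ha
    rw [Nat.choose_eq_zero_of_lt (by omega)]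
    simp

theorem det_binom (m : ℕ) (a b w : ℝ → ℂ)
    (hi : ∀ i j : Fin m, Integrable fun t => a t ^ (i : ℕ) * b t ^ (j : ℕ) * w t) :
    (Matrix.of fun i j : Fin m => ∫ t, (a t - 1) ^ (i : ℕ) * (b t - 1) ^ (j : ℕ) * w t).det =
      (Matrix.of fun i j : Fin m => ∫ t, a t ^ (i : ℕ) * b t ^ (j : ℕ) * w t).det := by
  have h : (Matrix.of fun i j : Fin m => ∫ t, (a t - 1) ^ (i : ℕ) * (b t - 1) ^ (j : ℕ) * w t) =
      Pb m * (Matrix.of fun i j : Fin m => ∫ t, a t ^ (i : ℕ) * b t ^ (j : ℕ) * w t) *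
        (Pb m).transpose := by
    ext i j
    simp only [Matrix.of_apply, Matrix.mul_apply, Matrix.transpose_apply, Finset.sum_mul]
    have h1 : ∀ t, (a t - 1) ^ (i : ℕ) * (b t - 1) ^ (j : ℕ) * w t =
        ∑ q : Fin m, ∑ p : Fin m, Pb m i p * Pb m j q * (a t ^ (p : ℕ) * b t ^ (q : ℕ) * w t) := by
      intro t
      rw [Pb_pow, Pb_pow, Finset.sum_mul_sum, Finset.sum_comm, Finset.sum_mul]
      refine Finset.sum_congr rfl fun q _ => ?_
      rw [Finset.sum_mul]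
      refine Finset.sum_congr rfl fun p _ => ?_
      ring
    simp only [h1]
    rw [integral_finsetSum _ fun q _ => integrable_finsetSum _ fun p _ => (hi p q).const_mul _]
    refine Finset.sum_congr rfl fun q _ => ?_
    rw [integral_finsetSum _ fun p _ => (hi p q).const_mul _]
    refine Finset.sum_congr rfl fun p _ => ?_
    rw [integral_const_mul]
    ring
  rw [h, Matrix.det_mul, Matrix.det_mul, Matrix.det_transpose, Pb_det]
  ring

/-! ### the integrals -/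

/-- The second exponential. -/
def ee (t : ℝ) : ℂ := Complex.exp (Complex.I * ((-t : ℝ) : ℂ))

theorem ee_norm (t : ℝ) : ‖ee t‖ = 1 := by
  unfold ee
  rw [Complex.norm_exp_I_mul_ofReal]

theorem continuous_ee : Continuous ee := by
  unfold ee
  fun_prop

theorem continuous_en (θ : ℝ) : Continuous (en θ) := by
  unfold en
  have := continuous_chi θ
  fun_prop

theorem W_eq (N : ℕ) (θ x : ℝ) (hx : (N : ℝ) * mu θ = x) (i j : ℕ) (t : ℝ) :
    W (N + i) (x + j) θ t = ((Z θ ^ (N + i) * Real.exp (-(θ * (x + j))) : ℝ) : ℂ) *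
      (chi θ t ^ i * ee t ^ j * en θ t ^ N) := by
  unfold W
  rw [ph_sl, mul_pow]
  have h1 : en θ t ^ N = chi θ t ^ N * Complex.exp (-(Complex.I * (t * x : ℝ))) := by
    unfold en
    rw [mul_pow, ← Complex.exp_nat_mul, ← hx]
    congr 2
    push_cast
    ring
  have h2 : ee t ^ j = Complex.exp (-(Complex.I * (t * j : ℝ))) := by
    unfold ee
    rw [← Complex.exp_nat_mul]
    congr 1
    push_cast
    ring
  have h3 : Complex.exp (-(sl θ t * ((x + j : ℝ) : ℂ))) =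
      ((Real.exp (-(θ * (x + j))) : ℝ) : ℂ) * (Complex.exp (-(Complex.I * (t * j : ℝ))) *
        Complex.exp (-(Complex.I * (t * x : ℝ)))) := by
    rw [Complex.ofReal_exp, ← Complex.exp_add, ← Complex.exp_add]
    congr 1
    unfold sl
    push_cast
    ring
  rw [h1, h2, h3, pow_add (chi θ t)]
  push_cast
  ring

theorem integrable_A (N : ℕ) (θ : ℝ) (i j : ℕ) :
    Integrable fun t => chi θ t ^ i * ee t ^ j * en θ t ^ (N + 2) := by
  have h := integrable_W (N + i) ((((N + 2 : ℕ) : ℝ) * mu θ) + j) θ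
  have h1 : ∀ t, W (N + i + 2) ((((N + 2 : ℕ) : ℝ) * mu θ) + j) θ t =
      ((Z θ ^ (N + 2 + i) * Real.exp (-(θ * ((((N + 2 : ℕ) : ℝ) * mu θ) + j))) : ℝ) : ℂ) *
      (chi θ t ^ i * ee t ^ j * en θ t ^ (N + 2)) := by
    intro t
    rw [← W_eq (N + 2) θ _ rfl i j t]
    congr 1
    ring
  set c : ℝ := Z θ ^ (N + 2 + i) * Real.exp (-(θ * ((((N + 2 : ℕ) : ℝ) * mu θ) + j))) with hc
  have hc0 : (c : ℂ) ≠ 0 := by
    rw [Ne, Complex.ofReal_eq_zero, hc]
    have := Z_pos θ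
    positivity
  have h2 := h.const_mul ((c : ℂ)⁻¹)
  refine h2.congr (ae_of_all _ fun t => ?_)
  simp only
  rw [h1, ← mul_assoc, inv_mul_cancel₀ hc0, one_mul]

theorem F_entry (n k : ℕ) (θ : ℝ) (hx : (((n + 2 : ℕ) : ℝ)) * mu θ = (k : ℝ) + 1) (i j : ℕ) :
    ((F (n + 1 + i) (k + j) : ℝ) : ℂ) =
      ((((n + i + 1).factorial : ℝ) * Z θ ^ (n + 2 + i) / (2 * Real.pi) : ℝ) : ℂ) *
      ((Real.exp (-(θ * ((k : ℝ) + 1 + j))) : ℝ) : ℂ) *
      ∫ t, chi θ t ^ i * ee t ^ j * en θ t ^ (n + 2) := by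
  have h1 := J_eq (n + i) θ (k + j)
  have h2 : J (n + i + 2) (((k + j : ℕ) : ℝ) + 1) θ =
      ((Z θ ^ (n + 2 + i) * Real.exp (-(θ * ((k : ℝ) + 1 + j))) : ℝ) : ℂ) *
      ∫ t, chi θ t ^ i * ee t ^ j * en θ t ^ (n + 2) := by
    unfold J
    rw [← integral_const_mul]
    congr 1
    funext t
    rw [← W_eq (n + 2) θ _ hx i j t]
    congr 1
    · ring
    · push_cast
      ring
  rw [h2] at h1
  have hpi : (Real.pi : ℂ) ≠ 0 := by exact_mod_cast Real.pi_ne_zero
  rw [show n + 1 + i = n + i + 1 by ring]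
  push_cast at h1 ⊢
  field_simp
  rw [mul_comm (F (n + i + 1) (k + j) : ℂ)] at *
  linear_combination -h1

theorem Cf_scale (N : ℕ) {θ r : ℝ} (hr : 0 < r) (i j : ℕ) :
    ∫ s, Cf N θ r i j s = ((r / mu θ : ℝ) : ℂ) ^ i * (((r : ℝ) : ℂ) ^ j * (r : ℂ)) *
      ∫ t, (chi θ t - 1) ^ i * (ee t - 1) ^ j * en θ t ^ N := by
  have h1 : ∀ s, Cf N θ r i j s = ((r / mu θ : ℝ) : ℂ) ^ i * ((r : ℝ) : ℂ) ^ j *
      (fun t => (chi θ t - 1) ^ i * (ee t - 1) ^ j * en θ t ^ N) (s / r) := by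
    intro s
    unfold Cf ee
    simp only
    rw [mul_pow (r : ℂ) (Complex.exp _ - 1) j, mul_div_assoc, mul_comm (r : ℂ) (_ / _),
      div_mul_eq_mul_div, mul_div_assoc, mul_pow (chi θ (s / r) - 1)]
    push_cast
    ring
  simp only [h1]
  have h2 := Measure.integral_comp_div
    (fun t => (chi θ t - 1) ^ i * (ee t - 1) ^ j * en θ t ^ N) r
  rw [abs_of_pos hr, Complex.real_smul] at h2
  rw [integral_const_mul, h2]
  ring

/-- The determinant of the rescaled integrals. -/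
def DC (m N : ℕ) (θ r : ℝ) : ℂ := (Matrix.of fun i j : Fin m => ∫ s, Cf N θ r i j s).det

theorem det_F (m n k : ℕ) (θ r : ℝ) (hr : 0 < r)
    (hx : (((n + 2 : ℕ) : ℝ)) * mu θ = (k : ℝ) + 1) :
    ∃ c : ℝ, 0 < c ∧
      (((Matrix.of fun i j : Fin m => (F (n + 1 + i) (k + j) : ℝ)).det : ℝ) : ℂ) =
        (c : ℂ) * DC m (n + 2) θ r := by
  have hm := mu_pos θ
  have hZ := Z_pos θ
  set a : Fin m → ℝ := fun i =>
    ((n + i + 1).factorial : ℝ) * Z θ ^ (n + 2 + i) / (2 * Real.pi) with ha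
  set b : Fin m → ℝ := fun j => Real.exp (-(θ * ((k : ℝ) + 1 + j))) with hb
  set a' : Fin m → ℝ := fun i => (r / mu θ) ^ (i : ℕ) with ha'
  set b' : Fin m → ℝ := fun j => r ^ (j : ℕ) * r with hb'
  have ha0 : ∀ i, 0 < a i := fun i => by
    have := Real.pi_pos
    rw [ha]
    positivity
  have hb0 : ∀ i, 0 < b i := fun i => Real.exp_pos _
  have ha0' : ∀ i, 0 < a' i := fun i => by
    rw [ha']
    positivity
  have hb0' : ∀ i, 0 < b' i := fun i => by
    rw [hb']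
    positivity
  refine ⟨(∏ i, a i) * (∏ i, b i) / ((∏ i, a' i) * ∏ i, b' i), ?_, ?_⟩
  · have h1 := Finset.prod_pos fun i (_ : i ∈ (Finset.univ : Finset (Fin m))) => ha0 i
    have h2 := Finset.prod_pos fun i (_ : i ∈ (Finset.univ : Finset (Fin m))) => hb0 i
    have h3 := Finset.prod_pos fun i (_ : i ∈ (Finset.univ : Finset (Fin m))) => ha0' i
    have h4 := Finset.prod_pos fun i (_ : i ∈ (Finset.univ : Finset (Fin m))) => hb0' i
    positivity
  · -- the determinant of the integrals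
    set A : Matrix (Fin m) (Fin m) ℂ := Matrix.of fun i j : Fin m =>
      ∫ t, chi θ t ^ (i : ℕ) * ee t ^ (j : ℕ) * en θ t ^ (n + 2) with hA
    have e1 : (((Matrix.of fun i j : Fin m => (F (n + 1 + i) (k + j) : ℝ)).det : ℝ) : ℂ) =
        (∏ i, (a i : ℂ)) * (∏ i, (b i : ℂ)) * A.det := by
      have h1 : (((Matrix.of fun i j : Fin m => (F (n + 1 + i) (k + j) : ℝ)).det : ℝ) : ℂ) =
          (Matrix.of fun i j : Fin m => (a i : ℂ) *
            (Matrix.of fun i j : Fin m => (b j : ℂ) * A i j) i j).det := by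
        have h2 := (Complex.ofRealHom).map_det
          (Matrix.of fun i j : Fin m => (F (n + 1 + i) (k + j) : ℝ))
        refine h2.trans ?_
        congr 1
        ext i j
        simp only [RingHom.mapMatrix_apply, Matrix.map_apply, Matrix.of_apply,
          Complex.ofRealHom_eq_coe]
        rw [F_entry n k θ hx, hA, ha, hb, Matrix.of_apply, mul_assoc]
      rw [h1, Matrix.det_mul_column, Matrix.det_mul_row, mul_assoc]
    have e2 : DC m (n + 2) θ r = (∏ i, (a' i : ℂ)) * (∏ i, (b' i : ℂ)) * A.det := by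
      unfold DC
      have h1 : (Matrix.of fun i j : Fin m => ∫ s, Cf (n + 2) θ r i j s) =
          Matrix.of fun i j : Fin m => (a' i : ℂ) * (Matrix.of fun i j : Fin m => (b' j : ℂ) *
            (Matrix.of fun i j : Fin m => ∫ t, (chi θ t - 1) ^ (i : ℕ) * (ee t - 1) ^ (j : ℕ) *
              en θ t ^ (n + 2)) i j) i j := by
        ext i j
        simp only [Matrix.of_apply]
        rw [Cf_scale (n + 2) hr, ha', hb']
        push_cast
        ring
      rw [h1, Matrix.det_mul_column, Matrix.det_mul_row,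
        det_binom m (chi θ) ee (fun t => en θ t ^ (n + 2)) (fun i j => integrable_A n θ i j),
        mul_assoc]
    rw [e1, e2]
    have h3 : (∏ i, (a' i : ℂ)) ≠ 0 :=
      Finset.prod_ne_zero_iff.2 fun i _ => by exact_mod_cast (ha0' i).ne'
    have h4 : (∏ i, (b' i : ℂ)) ≠ 0 :=
      Finset.prod_ne_zero_iff.2 fun i _ => by exact_mod_cast (hb0' i).ne'
    push_cast
    field_simp

/-! ### the limit of the determinants -/

theorem limit_det (m : ℕ) :
    (Matrix.of fun i j : Fin m => Complex.I ^ (i : ℕ) * (-Complex.I) ^ (j : ℕ) *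
      ((G (i + j) : ℝ) : ℂ)).det =
      (((Matrix.of fun i j : Fin m => G (i + j)).det : ℝ) : ℂ) := by
  have h1 : (Matrix.of fun i j : Fin m => Complex.I ^ (i : ℕ) * (-Complex.I) ^ (j : ℕ) *
      ((G (i + j) : ℝ) : ℂ)) = Matrix.of fun i j : Fin m => Complex.I ^ (i : ℕ) *
        (Matrix.of fun i j : Fin m => (-Complex.I) ^ (j : ℕ) *
          ((Matrix.of fun i j : Fin m => G (i + j)).map Complex.ofRealHom) i j) i j := by
    ext i j
    simp only [Matrix.of_apply, Matrix.map_apply, Complex.ofRealHom_eq_coe]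
    ring
  rw [h1, Matrix.det_mul_column, Matrix.det_mul_row, ← mul_assoc, ← Finset.prod_mul_distrib]
  have h2 : ∏ i : Fin m, Complex.I ^ (i : ℕ) * (-Complex.I) ^ (i : ℕ) = 1 := by
    refine Finset.prod_eq_one fun i _ => ?_
    rw [← mul_pow]
    simp
  rw [h2, one_mul]
  exact ((Complex.ofRealHom).map_det (Matrix.of fun i j : Fin m => G (i + j))).symm

theorem tendsto_DC (m : ℕ) (N : ℕ → ℕ) (θ r : ℕ → ℝ) (hr : ∀ l, 0 < r l)
    (hV : ∀ l, r l ^ 2 = N l * va (θ l)) (ht : Tendsto r atTop atTop) :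
    Tendsto (fun l => DC m (N l) (θ l) (r l)) atTop
      (𝓝 (((Matrix.of fun i j : Fin m => G (i + j)).det : ℝ) : ℂ)) := by
  rw [← limit_det]
  have hc : Continuous fun A : Matrix (Fin m) (Fin m) ℂ => A.det := continuous_id.matrix_det
  refine (hc.tendsto _).comp ?_
  refine tendsto_pi_nhds.2 fun i => tendsto_pi_nhds.2 fun j => ?_
  exact tendsto_Cf m N θ r hr hV ht i j i.2.le j.2.le

/-- **The bulk.** -/
theorem bulk (m : ℕ) : ∃ V₀ : ℝ, 0 < V₀ ∧ ∀ (n k : ℕ) (θ : ℝ),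
    ((n + 2 : ℕ) : ℝ) * mu θ = (k : ℝ) + 1 → V₀ ≤ ((n + 2 : ℕ) : ℝ) * va θ →
      0 < (Matrix.of fun i j : Fin m => (F (n + 1 + i) (k + j) : ℝ)).det := by
  by_contra hcon
  push Not at hcon
  have h1 : ∀ l : ℕ, ∃ (n k : ℕ) (θ : ℝ), ((n + 2 : ℕ) : ℝ) * mu θ = (k : ℝ) + 1 ∧
      ((l : ℝ) + 1) ^ 2 ≤ ((n + 2 : ℕ) : ℝ) * va θ ∧
      (Matrix.of fun i j : Fin m => (F (n + 1 + i) (k + j) : ℝ)).det ≤ 0 :=
    fun l => hcon (((l : ℝ) + 1) ^ 2) (by positivity)
  choose n k θ hx hV hd using h1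
  set r : ℕ → ℝ := fun l => √(((n l + 2 : ℕ) : ℝ) * va (θ l)) with hrd
  have hr1 : ∀ l : ℕ, (l : ℝ) + 1 ≤ r l := fun l => Real.le_sqrt_of_sq_le (hV l)
  have hr0 : ∀ l, 0 < r l := fun l => lt_of_lt_of_le (by positivity) (hr1 l)
  have hr2 : ∀ l, r l ^ 2 = ((n l + 2 : ℕ) : ℝ) * va (θ l) := fun l => by
    rw [hrd]
    exact Real.sq_sqrt (le_trans (by positivity) (hV l))
  have hrt : Tendsto r atTop atTop := by
    refine tendsto_atTop_mono (fun l => ?_) tendsto_natCast_atTop_atTop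
    have := hr1 l
    linarith
  have h2 := tendsto_DC m (fun l => n l + 2) θ r hr0 hr2 hrt
  have h3 := (Complex.continuous_re.tendsto _).comp h2
  rw [Complex.ofReal_re] at h3
  have h4 := h3.eventually_const_lt (gauss_det_pos m)
  obtain ⟨l, hl⟩ := h4.exists
  obtain ⟨c, hc, h5⟩ := det_F m (n l) (k l) (θ l) (r l) (hr0 l) (hx l)
  have h6 := congrArg Complex.re h5
  rw [Complex.ofReal_re, Complex.re_ofReal_mul] at h6
  have h7 := hd l
  rw [h6] at h7
  have h8 : 0 < (DC m (n l + 2) (θ l) (r l)).re := hl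
  nlinarith [mul_pos hc h8]

end Pool.Agent.BrentiBulk
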