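import Pool.Agent.BrentiBulk.Worp

/-!
# The right edge: solid minors of the Eulerian triangle close to its border
-/

set_option autoImplicit false

noncomputable section

namespace Pool.Agent.BrentiBulk

open Set Filter Topology Pool.Agent.BrentiRegion

/-! ### elementary inequalities -/

theorem log_le (u M : ℝ) (hu : 0 < 1 + u) (hM : u ≤ M) :
    Real.log (1 + u) ≤ u - u ^ 2 / (2 * M + 4) := by
  set s := √(1 + u) with hs
  have hs0 : 0 < s := Real.sqrt_pos.2 hu
  have hs2 : s ^ 2 = 1 + u := Real.sq_sqrt hu.le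
  have h1 : Real.log (1 + u) = 2 * Real.log s := by
    rw [← hs2, Real.log_pow]
    norm_num
  have h2 : Real.log s ≤ s - 1 := Real.log_le_sub_one_of_pos hs0
  have h3 : (s + 1) ^ 2 ≤ 2 * M + 4 := by nlinarith [sq_nonneg (s - 1)]
  have h4 : u ^ 2 / (2 * M + 4) ≤ (s - 1) ^ 2 := by
    rw [div_le_iff₀ (by linarith)]
    have h5 : u = (s - 1) * (s + 1) := by nlinarith
    calc u ^ 2 = (s - 1) ^ 2 * (s + 1) ^ 2 := by rw [h5]; ring
      _ ≤ (s - 1) ^ 2 * (2 * M + 4) := mul_le_mul_of_nonneg_left h3 (sq_nonneg _)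
  rw [h1]
  nlinarith

theorem tend_small (c a : ℝ) (hc : 0 < c) :
    Tendsto (fun x : ℝ => (x ^ 2 + a) * Real.exp (-(x / c))) atTop (𝓝 0) := by
  have h0 : Tendsto (fun x : ℝ => x / c) atTop atTop := tendsto_id.atTop_div_const hc
  have h2 := ((Real.tendsto_pow_mul_exp_neg_atTop_nhds_zero 2).comp h0).const_mul (c ^ 2)
  have h3 := ((Real.tendsto_pow_mul_exp_neg_atTop_nhds_zero 0).comp h0).const_mul a
  have h4 := h2.add h3
  rw [mul_zero, mul_zero, add_zero] at h4
  refine h4.congr fun x => ?_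
  simp only [Function.comp_apply, pow_zero, one_mul]
  field_simp

/-- The ratio of an Eulerian number and its leading term. -/
theorem ratio_bounds (N Y : ℕ) (hY : 1 ≤ Y) :
    1 - ((N : ℝ) + 1) * Real.exp (-((N : ℝ) / Y)) ≤ (F N (Y - 1) : ℝ) / (Y : ℝ) ^ N ∧
      (F N (Y - 1) : ℝ) / (Y : ℝ) ^ N ≤ 1 := by
  have hY0 : (0 : ℝ) < Y := by exact_mod_cast hY
  have hp : (0 : ℝ) < (Y : ℝ) ^ N := pow_pos hY0 N
  constructor
  · rcases Nat.eq_or_lt_of_le hY with h | h
    · subst h
      have h1 := F_col N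
      rw [Nat.sub_self, h1]
      have := Real.exp_pos (-((N : ℝ) / ((1 : ℕ) : ℝ)))
      simp only [Int.cast_one, Nat.cast_one, one_pow, div_one] at this ⊢
      have h2 : 0 ≤ ((N : ℝ) + 1) * Real.exp (-(N : ℝ)) := by positivity
      linarith
    · obtain ⟨p, rfl⟩ : ∃ p, Y = p + 2 := ⟨Y - 2, by omega⟩
      have h1 := pow_sub_le_F N p
      have h2 : ((p : ℝ) + 2) ^ N - ((N : ℝ) + 1) * ((p : ℝ) + 1) ^ N ≤ (F N (p + 1) : ℝ) := by
        exact_mod_cast h1
      rw [show p + 2 - 1 = p + 1 by omega, le_div_iff₀ hp]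
      refine le_trans ?_ h2
      have h3 : ((p : ℝ) + 1) ^ N ≤ Real.exp (-((N : ℝ) / ((p + 2 : ℕ) : ℝ))) *
          (((p + 2 : ℕ) : ℝ)) ^ N := by
        have h4 : (p : ℝ) + 1 ≤ Real.exp (-(1 / ((p + 2 : ℕ) : ℝ))) * ((p + 2 : ℕ) : ℝ) := by
          have h5 := Real.add_one_le_exp (-(1 / ((p + 2 : ℕ) : ℝ)))
          calc (p : ℝ) + 1 = (-(1 / ((p + 2 : ℕ) : ℝ)) + 1) * ((p + 2 : ℕ) : ℝ) := by
                push_cast
                field_simp
                ring
            _ ≤ _ := mul_le_mul_of_nonneg_right h5 hY0.le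
        calc ((p : ℝ) + 1) ^ N ≤
              (Real.exp (-(1 / ((p + 2 : ℕ) : ℝ))) * ((p + 2 : ℕ) : ℝ)) ^ N :=
              pow_le_pow_left₀ (by positivity) h4 N
          _ = _ := by
            rw [mul_pow, ← Real.exp_nat_mul]
            congr 2
            ring
      have h4 : (0 : ℝ) ≤ (N : ℝ) + 1 := by positivity
      have h5 := mul_le_mul_of_nonneg_left h3 h4
      push_cast at h5 ⊢
      nlinarith
  · rw [div_le_one hp]
    have h1 := F_le_pow N (Y - 1)
    have h2 : (F N (Y - 1) : ℝ) ≤ (((Y - 1 : ℕ) : ℝ) + 1) ^ N := by exact_mod_cast h1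
    rw [Nat.cast_sub hY] at h2
    simpa using h2

/-! ### the entries -/

/-- The rescaled entries. -/
def Er (n y i j : ℕ) : ℝ :=
  (F (n + i) (n - y + j) : ℝ) / ((y : ℝ) ^ (n + i) * Real.exp ((n : ℝ) / y * ((i : ℝ) - j)))

theorem Er_zero (n y i j : ℕ) (hy : 1 ≤ y) (hyn : y ≤ n) (h : y + i ≤ j) : Er n y i j = 0 := by
  unfold Er
  rw [F_vanish' (n + i) (n - y + j) (by omega) (by omega)]
  simp

theorem Er_eq (n y i j : ℕ) (hy : 1 ≤ y) (hyn : y ≤ n) (h : j < y + i) :
    Er n y i j = (F (n + i) (y + i - j - 1) : ℝ) / ((y + i - j : ℕ) : ℝ) ^ (n + i) *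
      ((1 + ((i : ℝ) - j) / y) ^ (n + i) * Real.exp (-((n : ℝ) / y * ((i : ℝ) - j)))) := by
  have hy0 : (0 : ℝ) < y := by exact_mod_cast hy
  have hY : (0 : ℝ) < ((y + i - j : ℕ) : ℝ) := by
    exact_mod_cast (by omega : 0 < y + i - j)
  have h1 : F (n + i) (n - y + j) = F (n + i) (y + i - j - 1) := by
    have h2 := F_symm (n + i - 1) (n - y + j) (by omega)
    rw [show n + i - 1 + 1 = n + i by omega] at h2
    rw [h2]
    congr 1
    omega
  unfold Er
  rw [h1]
  have h3 : (1 + ((i : ℝ) - j) / y) = ((y + i - j : ℕ) : ℝ) / y := by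
    rw [Nat.cast_sub h.le]
    push_cast
    field_simp
    ring
  rw [h3, div_pow, Real.exp_neg]
  field_simp

/-! ### the limits -/

/-- the lower bound for the ratio, uniform in the region -/
theorem ratio_ge {C : ℝ} (n y i j : ℕ) (hn : 1 ≤ n) (hyC : (y : ℝ) ^ 2 ≤ C * n)
    (h : j < y + i) :
    1 - ((√(n : ℝ)) ^ 2 + ((i : ℝ) + 1)) * Real.exp (-(√(n : ℝ) / (√C + 1 + i))) ≤
      (F (n + i) (y + i - j - 1) : ℝ) / ((y + i - j : ℕ) : ℝ) ^ (n + i) := by
  have hn0 : (1 : ℝ) ≤ n := by exact_mod_cast hn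
  have hs1 : 1 ≤ √(n : ℝ) := by
    rw [Real.one_le_sqrt]
    exact hn0
  have hs2 : √(n : ℝ) ^ 2 = n := Real.sq_sqrt (by linarith)
  have hY : (0 : ℝ) < ((y + i - j : ℕ) : ℝ) := by
    exact_mod_cast (by omega : 0 < y + i - j)
  have h1 := (ratio_bounds (n + i) (y + i - j) (by omega)).1
  refine le_trans ?_ h1
  have h2 : √(n : ℝ) / (√C + 1 + i) ≤ ((n + i : ℕ) : ℝ) / ((y + i - j : ℕ) : ℝ) := by
    have hK : 0 < √C + 1 + i := by positivity
    rw [div_le_div_iff₀ hK hY]
    have h3 : ((y + i - j : ℕ) : ℝ) ≤ (√C + 1 + i) * √(n : ℝ) := by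
      have h4 : ((y + i - j : ℕ) : ℝ) ≤ (y : ℝ) + i := by
        have : y + i - j ≤ y + i := Nat.sub_le _ _
        exact_mod_cast this
      have h5 : (y : ℝ) ≤ √C * √(n : ℝ) := by
        rw [← Real.sqrt_mul' _ (by linarith)]
        exact Real.le_sqrt_of_sq_le hyC
      have h6 : (i : ℝ) ≤ i * √(n : ℝ) := by
        have := Nat.cast_nonneg (α := ℝ) i
        nlinarith
      nlinarith
    calc √(n : ℝ) * ((y + i - j : ℕ) : ℝ) ≤ √(n : ℝ) * ((√C + 1 + i) * √(n : ℝ)) :=
          mul_le_mul_of_nonneg_left h3 (by linarith)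
      _ = √(n : ℝ) ^ 2 * (√C + 1 + i) := by ring
      _ = n * (√C + 1 + i) := by rw [hs2]
      _ ≤ ((n + i : ℕ) : ℝ) * (√C + 1 + i) := by
        refine mul_le_mul_of_nonneg_right ?_ hK.le
        push_cast
        linarith [Nat.cast_nonneg (α := ℝ) i]
  have h3 : Real.exp (-(((n + i : ℕ) : ℝ) / ((y + i - j : ℕ) : ℝ))) ≤
      Real.exp (-(√(n : ℝ) / (√C + 1 + i))) := Real.exp_le_exp.2 (by linarith)
  have h4 : (((n + i : ℕ) : ℝ) + 1) = √(n : ℝ) ^ 2 + ((i : ℝ) + 1) := by
    rw [hs2]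
    push_cast
    ring
  rw [h4]
  have h5 : 0 ≤ √(n : ℝ) ^ 2 + ((i : ℝ) + 1) := by positivity
  nlinarith [mul_le_mul_of_nonneg_left h3 h5]

section lim

variable {n y : ℕ → ℕ} {C : ℝ}

theorem tendsto_sqrt_n (hn : Tendsto n atTop atTop) :
    Tendsto (fun l => √((n l : ℕ) : ℝ)) atTop atTop :=
  Real.tendsto_sqrt_atTop.comp (tendsto_natCast_atTop_atTop.comp hn)

theorem tendsto_ratio (hyC : ∀ l, (y l : ℝ) ^ 2 ≤ C * n l) (hn : Tendsto n atTop atTop)
    (i j : ℕ) (hij : ∀ᶠ l in atTop, j < y l + i) :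
    Tendsto (fun l => (F (n l + i) (y l + i - j - 1) : ℝ) / ((y l + i - j : ℕ) : ℝ) ^ (n l + i))
      atTop (𝓝 1) := by
  have h1 := (tend_small (√C + 1 + i) ((i : ℝ) + 1) (by positivity)).comp (tendsto_sqrt_n hn)
  have h2 := h1.const_sub 1
  rw [sub_zero] at h2
  refine tendsto_of_tendsto_of_tendsto_of_le_of_le' h2 tendsto_const_nhds ?_ ?_
  · filter_upwards [hij, hn.eventually_ge_atTop 1] with l h3 h4
    exact ratio_ge (n l) (y l) i j h4 (hyC l) h3
  · filter_upwards [hij] with l h3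
    exact (ratio_bounds (n l + i) (y l + i - j) (by omega)).2

/-- the limit for a positive parameter -/
theorem Er_lim_pos (hy1 : ∀ l, 1 ≤ y l) (hyn : ∀ l, y l ≤ n l)
    (hyC : ∀ l, (y l : ℝ) ^ 2 ≤ C * n l) (hn : Tendsto n atTop atTop) {w : ℝ} (hw0 : 0 < w)
    (hw : Tendsto (fun l => (y l : ℝ) ^ 2 / n l) atTop (𝓝 w)) (i j : ℕ) :
    Tendsto (fun l => Er (n l) (y l) i j) atTop
      (𝓝 (Real.exp (-(((i : ℝ) - j) ^ 2 / (2 * w))))) := by
  set d : ℝ := (i : ℝ) - j with hd
  -- `y` tends to infinity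
  have hyt : Tendsto (fun l => (y l : ℝ)) atTop atTop := by
    have h1 : Tendsto (fun l => ((y l : ℝ) ^ 2 / n l) * (n l : ℝ)) atTop atTop :=
      hw.pos_mul_atTop hw0 (tendsto_natCast_atTop_atTop.comp hn)
    have h2 : Tendsto (fun l => (y l : ℝ) ^ 2) atTop atTop := by
      refine h1.congr' ?_
      filter_upwards [hn.eventually_ge_atTop 1] with l hl
      have : (0 : ℝ) < n l := by exact_mod_cast hl
      field_simp
    refine tendsto_atTop_mono (fun l => ?_) (Real.tendsto_sqrt_atTop.comp h2)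
    simp only [Function.comp_apply]
    rw [Real.sqrt_sq (Nat.cast_nonneg _)]
  have hyinv : Tendsto (fun l => (y l : ℝ)⁻¹) atTop (𝓝 0) := tendsto_inv_atTop_zero.comp hyt
  have hij : ∀ᶠ l in atTop, j < y l + i := by
    filter_upwards [hyt.eventually_gt_atTop (j : ℝ)] with l hl
    have : j < y l := by exact_mod_cast hl
    omega
  have hu : Tendsto (fun l => d / (y l : ℝ)) atTop (𝓝 0) := by
    have := hyinv.const_mul d
    rw [mul_zero] at this
    exact this
  have hu1 : ∀ᶠ l in atTop, |d / (y l : ℝ)| ≤ 1 / 2 := by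
    have := hu.abs
    rw [abs_zero] at this
    exact this.eventually_le_const (by norm_num)
  -- the exponent
  have hlog : Tendsto (fun l => (y l : ℝ) ^ 2 * (Real.log (1 + d / y l) - d / y l)) atTop
      (𝓝 (-(d ^ 2 / 2))) := by
    rw [tendsto_iff_norm_sub_tendsto_zero]
    have h1 := hyinv.const_mul (2 * |d| ^ 3)
    rw [mul_zero] at h1
    refine squeeze_zero' (Eventually.of_forall fun l => norm_nonneg _) ?_ h1
    filter_upwards [hu1] with l hl
    have hy0 : (0 : ℝ) < y l := by exact_mod_cast hy1 l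
    set u : ℝ := d / (y l : ℝ) with hu'
    have h2 := Real.abs_log_sub_add_sum_range_le (x := -u) (by rw [abs_neg]; linarith) 2
    rw [Finset.sum_range_succ, Finset.sum_range_one, abs_neg, sub_neg_eq_add] at h2
    have h3 : |Real.log (1 + u) - u + u ^ 2 / 2| ≤ 2 * |u| ^ 3 := by
      have h4 : (-u) ^ (0 + 1) / ((0 : ℕ) + 1) + (-u) ^ (1 + 1) / (((1 : ℕ) : ℝ) + 1) +
          Real.log (1 + u) = Real.log (1 + u) - u + u ^ 2 / 2 := by
        norm_num
        ring
      rw [h4] at h2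
      refine h2.trans ?_
      rw [div_le_iff₀ (by linarith)]
      have h5 : 0 ≤ |u| ^ 3 := by positivity
      have h6 := mul_nonneg h5 (by linarith : 0 ≤ 1 / 2 - |u|)
      have h7 : |u| ^ (2 + 1) = |u| ^ 3 := by norm_num
      rw [h7]
      nlinarith
    rw [Real.norm_eq_abs]
    have h5 : (y l : ℝ) ^ 2 * (Real.log (1 + u) - u) - -(d ^ 2 / 2) =
        (y l : ℝ) ^ 2 * (Real.log (1 + u) - u + u ^ 2 / 2) := by
      have h6 : d = u * y l := by rw [hu']; field_simp
      rw [h6]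
      ring
    rw [h5, abs_mul, abs_of_nonneg (by positivity : (0 : ℝ) ≤ (y l : ℝ) ^ 2)]
    calc (y l : ℝ) ^ 2 * |Real.log (1 + u) - u + u ^ 2 / 2| ≤ (y l : ℝ) ^ 2 * (2 * |u| ^ 3) :=
          mul_le_mul_of_nonneg_left h3 (by positivity)
      _ = 2 * |d| ^ 3 * (y l : ℝ)⁻¹ := by
        rw [hu', abs_div, abs_of_pos hy0]
        field_simp
  have hwinv : Tendsto (fun l => (n l : ℝ) / (y l : ℝ) ^ 2) atTop (𝓝 w⁻¹) := by
    refine (hw.inv₀ hw0.ne').congr fun l => ?_
    rw [inv_div]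
  have hL : Tendsto (fun l => ((n l + i : ℕ) : ℝ) * Real.log (1 + d / y l) -
      (n l : ℝ) / y l * d) atTop (𝓝 (-(d ^ 2 / (2 * w)))) := by
    have h1 := hwinv.mul hlog
    have h2 : Tendsto (fun l => (i : ℝ) * Real.log (1 + d / y l)) atTop (𝓝 0) := by
      have h3 : Tendsto (fun l => 1 + d / (y l : ℝ)) atTop (𝓝 1) := by
        have := hu.const_add 1
        rwa [add_zero] at this
      have h4 := ((Real.continuousAt_log one_ne_zero).tendsto.comp h3).const_mul (i : ℝ)
      rw [Real.log_one, mul_zero] at h4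
      exact h4
    have h3 := h1.add h2
    rw [add_zero] at h3
    have h4 : w⁻¹ * -(d ^ 2 / 2) = -(d ^ 2 / (2 * w)) := by
      field_simp
    rw [h4] at h3
    refine h3.congr fun l => ?_
    have hy0 : (y l : ℝ) ≠ 0 := by
      have := hy1 l
      positivity
    push_cast
    field_simp
    ring
  have h1 := (tendsto_ratio hyC hn i j hij).mul ((Real.continuous_exp.tendsto _).comp hL)
  rw [one_mul] at h1
  refine h1.congr' ?_
  filter_upwards [hij, hu1] with l h2 h3
  rw [Er_eq (n l) (y l) i j (hy1 l) (hyn l) h2]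
  congr 1
  simp only [Function.comp_apply]
  have h4 : 0 < 1 + d / (y l : ℝ) := by
    have := (abs_le.1 h3).1
    linarith
  rw [sub_eq_add_neg, Real.exp_add, Real.exp_nat_mul, Real.exp_log h4]

/-- the limit for the parameter zero -/
theorem Er_lim_zero (hy1 : ∀ l, 1 ≤ y l) (hyn : ∀ l, y l ≤ n l)
    (hyC : ∀ l, (y l : ℝ) ^ 2 ≤ C * n l) (hn : Tendsto n atTop atTop)
    (hw : Tendsto (fun l => (y l : ℝ) ^ 2 / n l) atTop (𝓝 0)) (i j : ℕ) :
    Tendsto (fun l => Er (n l) (y l) i j) atTop (𝓝 (if i = j then 1 else 0)) := by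
  by_cases hij : i = j
  · subst hij
    rw [if_pos rfl]
    have hy : ∀ᶠ l in atTop, i < y l + i := Eventually.of_forall fun l => by
      have := hy1 l
      omega
    refine (tendsto_ratio hyC hn i i hy).congr fun l => ?_
    rw [Er_eq (n l) (y l) i i (hy1 l) (hyn l) (by have := hy1 l; omega)]
    simp
  · rw [if_neg hij]
    set d : ℝ := (i : ℝ) - j with hd
    have hd2 : 1 ≤ d ^ 2 := by
      have h1 : (i : ℤ) - j ≠ 0 := by omega
      have h2 : (1 : ℤ) ≤ ((i : ℤ) - j) ^ 2 := by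
        have := sq_pos_of_ne_zero h1
        omega
      have h3 : ((1 : ℤ) : ℝ) ≤ ((((i : ℤ) - j) ^ 2 : ℤ) : ℝ) := by exact_mod_cast h2
      push_cast at h3
      exact h3
    have hwinv : Tendsto (fun l => (n l : ℝ) / (y l : ℝ) ^ 2) atTop atTop := by
      have h1 : Tendsto (fun l => (y l : ℝ) ^ 2 / n l) atTop (𝓝[>] 0) := by
        rw [tendsto_nhdsWithin_iff]
        refine ⟨hw, Eventually.of_forall fun l => ?_⟩
        have h2 : (0 : ℝ) < y l := by exact_mod_cast hy1 l
        have h3 : (0 : ℝ) < n l := by exact_mod_cast (hy1 l).trans (hyn l)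
        exact div_pos (by positivity) h3
      refine (tendsto_inv_nhdsGT_zero.comp h1).congr fun l => ?_
      simp only [Function.comp_apply]
      rw [inv_div]
    have hb : Tendsto (fun l => (1 + (i : ℝ)) ^ i *
        Real.exp (-((n l : ℝ) / (y l : ℝ) ^ 2 / (2 * i + 4)))) atTop (𝓝 0) := by
      have h1 : Tendsto (fun l => (n l : ℝ) / (y l : ℝ) ^ 2 / (2 * (i : ℝ) + 4)) atTop atTop :=
        hwinv.atTop_div_const (by positivity)
      have h2 := (Real.tendsto_exp_neg_atTop_nhds_zero.comp h1).const_mul ((1 + (i : ℝ)) ^ i)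
      rw [mul_zero] at h2
      exact h2
    refine squeeze_zero (fun l => ?_) (fun l => ?_) hb
    · unfold Er
      have h1 : (0 : ℝ) ≤ F (n l + i) (n l - y l + j) := by exact_mod_cast F_nonneg _ _
      positivity
    · rcases Nat.lt_or_ge j (y l + i) with h | h
      · rw [Er_eq (n l) (y l) i j (hy1 l) (hyn l) h]
        have hy0 : (0 : ℝ) < y l := by exact_mod_cast hy1 l
        have hy1' : (1 : ℝ) ≤ y l := by exact_mod_cast hy1 l
        have h1 := (ratio_bounds (n l + i) (y l + i - j) (by omega)).2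
        have h2 : 0 < 1 + d / (y l : ℝ) := by
          have h3 : (1 + d / (y l : ℝ)) = ((y l + i - j : ℕ) : ℝ) / y l := by
            rw [Nat.cast_sub h.le, hd]
            push_cast
            field_simp
            ring
          rw [h3]
          have : (0 : ℝ) < ((y l + i - j : ℕ) : ℝ) := by
            exact_mod_cast (by omega : 0 < y l + i - j)
          positivity
        have h3 : d / (y l : ℝ) ≤ i := by
          rw [div_le_iff₀ hy0]
          have h4 := Nat.cast_nonneg (α := ℝ) i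
          have h5 := Nat.cast_nonneg (α := ℝ) j
          nlinarith
        have h4 := log_le (d / y l) i h2 h3
        have h5 : (1 + d / (y l : ℝ)) ^ (n l + i) * Real.exp (-((n l : ℝ) / y l * d)) ≤
            (1 + (i : ℝ)) ^ i * Real.exp (-((n l : ℝ) / (y l : ℝ) ^ 2 / (2 * i + 4))) := by
          have h6 : (1 + d / (y l : ℝ)) ^ (n l + i) * Real.exp (-((n l : ℝ) / y l * d)) =
              (1 + d / (y l : ℝ)) ^ i *
                Real.exp ((n l : ℝ) * (Real.log (1 + d / y l) - d / y l)) := by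
            have h7 : (n l : ℝ) * (Real.log (1 + d / y l) - d / y l) =
                (n l : ℝ) * Real.log (1 + d / y l) + -((n l : ℝ) / y l * d) := by
              field_simp
              ring
            rw [h7, Real.exp_add, Real.exp_nat_mul, Real.exp_log h2, pow_add]
            ring
          rw [h6]
          have h8 : (n l : ℝ) * (Real.log (1 + d / y l) - d / y l) ≤
              -((n l : ℝ) / (y l : ℝ) ^ 2 / (2 * i + 4)) := by
            have h9 : Real.log (1 + d / y l) - d / y l ≤ -(1 / (y l : ℝ) ^ 2 / (2 * i + 4)) := by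
              have h10 : 1 / (y l : ℝ) ^ 2 / (2 * i + 4) ≤ (d / y l) ^ 2 / (2 * i + 4) := by
                rw [div_pow]
                gcongr
              linarith
            calc (n l : ℝ) * (Real.log (1 + d / y l) - d / y l) ≤
                  (n l : ℝ) * -(1 / (y l : ℝ) ^ 2 / (2 * i + 4)) :=
                  mul_le_mul_of_nonneg_left h9 (Nat.cast_nonneg _)
              _ = _ := by ring
          have h9 : (1 + d / (y l : ℝ)) ^ i ≤ (1 + (i : ℝ)) ^ i :=
            pow_le_pow_left₀ h2.le (by linarith) i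
          have h10 := Real.exp_le_exp.2 h8
          gcongr
        calc (F (n l + i) (y l + i - j - 1) : ℝ) / ((y l + i - j : ℕ) : ℝ) ^ (n l + i) *
              ((1 + d / (y l : ℝ)) ^ (n l + i) * Real.exp (-((n l : ℝ) / y l * d))) ≤
              1 * ((1 + d / (y l : ℝ)) ^ (n l + i) * Real.exp (-((n l : ℝ) / y l * d))) :=
              mul_le_mul_of_nonneg_right h1 (by positivity)
          _ ≤ _ := by rw [one_mul]; exact h5
      · rw [Er_zero (n l) (y l) i j (hy1 l) (hyn l) h]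
        positivity

end lim

/-! ### the Gauss kernel -/

theorem kernel_pos (m : ℕ) {w : ℝ} (hw : 0 < w) :
    0 < (Matrix.of fun i j : Fin m =>
      Real.exp (-((((i : ℕ) : ℝ) - (j : ℕ)) ^ 2 / (2 * w)))).det := by
  have h1 : (Matrix.of fun i j : Fin m => Real.exp (-((((i : ℕ) : ℝ) - (j : ℕ)) ^ 2 / (2 * w)))) =
      Matrix.of fun i j : Fin m => Real.exp (-(((i : ℕ) : ℝ) ^ 2 / (2 * w))) *
        (Matrix.of fun i j : Fin m => Real.exp (-(((j : ℕ) : ℝ) ^ 2 / (2 * w))) *
          Matrix.vandermonde (fun i : Fin m => Real.exp (((i : ℕ) : ℝ) / w)) i j) i j := by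
    ext i j
    simp only [Matrix.of_apply, Matrix.vandermonde_apply]
    rw [← Real.exp_nat_mul, ← Real.exp_add, ← Real.exp_add]
    congr 1
    field_simp
    ring
  rw [h1, Matrix.det_mul_column, Matrix.det_mul_row, Matrix.det_vandermonde]
  refine mul_pos (Finset.prod_pos fun i _ => Real.exp_pos _)
    (mul_pos (Finset.prod_pos fun i _ => Real.exp_pos _) ?_)
  refine Finset.prod_pos fun i _ => Finset.prod_pos fun j hj => ?_
  have hij' : i < j := Finset.mem_Ioi.1 hj
  have hij : (i : ℕ) < j := hij'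
  rw [sub_pos]
  refine Real.exp_lt_exp.2 ?_
  have : ((i : ℕ) : ℝ) < (j : ℕ) := by exact_mod_cast hij
  gcongr

/-- **The right edge.** -/
theorem right_edge (m : ℕ) (C : ℝ) : ∃ n₀ : ℕ, ∀ n y : ℕ, n₀ ≤ n → 1 ≤ y → y ≤ n →
    (y : ℝ) ^ 2 ≤ C * n →
      0 < (Matrix.of fun i j : Fin m => (F (n + i) (n - y + j) : ℝ)).det := by
  by_contra hcon
  push Not at hcon
  choose n y hn hy1 hyn hyC hd using hcon
  have hnt : Tendsto n atTop atTop := tendsto_atTop_mono hn tendsto_id
  have hw : ∀ l, (y l : ℝ) ^ 2 / n l ∈ Icc 0 C := fun l => by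
    have h3 : (0 : ℝ) < n l := by exact_mod_cast (hy1 l).trans (hyn l)
    refine ⟨by positivity, ?_⟩
    rw [div_le_iff₀ h3]
    exact hyC l
  obtain ⟨w, hw1, φ, hφ, hlim⟩ := isCompact_Icc.tendsto_subseq hw
  have hnt' : Tendsto (fun l => n (φ l)) atTop atTop := hnt.comp hφ.tendsto_atTop
  have hlim' : Tendsto (fun l => (y (φ l) : ℝ) ^ 2 / n (φ l)) atTop (𝓝 w) := hlim
  -- the determinant of the rescaled entries
  have hpos : ∀ᶠ l in atTop, 0 < (Matrix.of fun i j : Fin m => Er (n (φ l)) (y (φ l)) i j).det := by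
    have hc : Continuous fun A : Matrix (Fin m) (Fin m) ℝ => A.det := continuous_id.matrix_det
    rcases hw1.1.eq_or_lt with h0 | h0
    · have h1 : Tendsto (fun l => (Matrix.of fun i j : Fin m => Er (n (φ l)) (y (φ l)) i j))
          atTop (𝓝 (1 : Matrix (Fin m) (Fin m) ℝ)) := by
        refine tendsto_pi_nhds.2 fun i => tendsto_pi_nhds.2 fun j => ?_
        have h2 := Er_lim_zero (fun l => hy1 (φ l)) (fun l => hyn (φ l)) (fun l => hyC (φ l)) hnt'
          (by rw [h0]; exact hlim') (i : ℕ) (j : ℕ)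
        rw [Matrix.one_apply]
        simp only [Fin.ext_iff]
        exact h2
      have h3 := (hc.tendsto _).comp h1
      simp only [Matrix.det_one] at h3
      exact h3.eventually_const_lt one_pos
    · have h1 : Tendsto (fun l => (Matrix.of fun i j : Fin m => Er (n (φ l)) (y (φ l)) i j))
          atTop (𝓝 (Matrix.of fun i j : Fin m =>
            Real.exp (-((((i : ℕ) : ℝ) - (j : ℕ)) ^ 2 / (2 * w))))) := by
        refine tendsto_pi_nhds.2 fun i => tendsto_pi_nhds.2 fun j => ?_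
        exact Er_lim_pos (fun l => hy1 (φ l)) (fun l => hyn (φ l)) (fun l => hyC (φ l)) hnt'
          h0 hlim' (i : ℕ) (j : ℕ)
      exact ((hc.tendsto _).comp h1).eventually_const_lt (kernel_pos m h0)
  obtain ⟨l, hl⟩ := hpos.exists
  have h4 := hd (φ l)
  -- comparison of the determinants
  have hy0 : (0 : ℝ) < y (φ l) := by exact_mod_cast hy1 (φ l)
  have h5 : (Matrix.of fun i j : Fin m => (F (n (φ l) + i) (n (φ l) - y (φ l) + j) : ℝ)) =
      Matrix.of fun i j : Fin m => ((y (φ l) : ℝ) ^ (n (φ l) + (i : ℕ)) *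
        Real.exp ((n (φ l) : ℝ) / y (φ l) * (i : ℕ))) *
        (Matrix.of fun i j : Fin m => Real.exp (-((n (φ l) : ℝ) / y (φ l) * (j : ℕ))) *
          (Matrix.of fun i j : Fin m => Er (n (φ l)) (y (φ l)) i j) i j) i j := by
    ext i j
    simp only [Matrix.of_apply]
    unfold Er
    rw [mul_sub, sub_eq_add_neg, Real.exp_add]
    field_simp
  rw [h5, Matrix.det_mul_column, Matrix.det_mul_row] at h4
  have h6 : 0 < ∏ i : Fin m, ((y (φ l) : ℝ) ^ (n (φ l) + (i : ℕ)) *
        Real.exp ((n (φ l) : ℝ) / y (φ l) * (i : ℕ))) :=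
    Finset.prod_pos fun i _ => by positivity
  have h7 : 0 < ∏ i : Fin m, Real.exp (-((n (φ l) : ℝ) / y (φ l) * (i : ℕ))) :=
    Finset.prod_pos fun i _ => Real.exp_pos _
  have h8 := mul_pos h6 (mul_pos h7 hl)
  linarith

end Pool.Agent.BrentiBulk
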