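import Pool.Agent.BrentiBulk.Bulk
import Pool.Agent.BrentiBulk.Edge
import Pool.Agent.BrentiRegion.Region

/-!
# All solid minors of a fixed order with large rows
-/

set_option autoImplicit false

noncomputable section

namespace Pool.Agent.BrentiBulk

open Set Filter Topology Pool.Agent.BrentiRegion

/-- The threshold of the left region is reached. -/
theorem left_thr (m : ℕ) (C : ℝ) : ∃ n₀ : ℕ, ∀ n c : ℕ, n₀ ≤ n → ((c : ℝ)) ^ 2 ≤ C * n →
    (c + m) * (4 * Nat.log 2 (c + m) + 8) ≤ n := by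
  -- `X (4 log X + 8) ≤ δ X²` for large `X`
  set B : ℝ := 2 * |C| + 2 * m ^ 2 + 1 with hB
  have hB0 : 0 < B := by positivity
  have h1 : ∀ᶠ X : ℕ in atTop, 4 * (Nat.log 2 X : ℝ) + 8 ≤ (X : ℝ) / B := by
    have h2 : ∀ᶠ x : ℝ in atTop, ‖Real.log x‖ ≤ (Real.log 2 / (8 * B)) * ‖x‖ :=
      Real.isLittleO_log_id_atTop.bound (by
        have := Real.log_pos (one_lt_two (α := ℝ))
        positivity)
    have h3 := tendsto_natCast_atTop_atTop (R := ℝ) |>.eventually h2
    have h4 : ∀ᶠ X : ℕ in atTop, 16 * B ≤ (X : ℝ) :=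
      tendsto_natCast_atTop_atTop.eventually_ge_atTop _
    filter_upwards [h3, h4, eventually_ge_atTop 1] with X h5 h6 h7
    have hX : (1 : ℝ) ≤ X := by exact_mod_cast h7
    have hl2 := Real.log_pos (one_lt_two (α := ℝ))
    have h8 : (Nat.log 2 X : ℝ) ≤ Real.log X / Real.log 2 := by
      have := Real.natLog_le_logb X 2
      rw [Real.logb] at this
      exact_mod_cast this
    rw [Real.norm_of_nonneg (Real.log_nonneg hX), Real.norm_of_nonneg (by linarith)] at h5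
    have h9 : Real.log X / Real.log 2 ≤ X / (8 * B) := by
      rw [div_le_iff₀ hl2]
      calc Real.log X ≤ Real.log 2 / (8 * B) * X := h5
        _ = X / (8 * B) * Real.log 2 := by ring
    have h10 : (8 : ℝ) ≤ X / B / 2 := by
      rw [div_div, le_div_iff₀ (by positivity)]
      linarith
    have h11 : (X : ℝ) / (8 * B) = X / B / 8 := by rw [mul_comm, div_div]
    have h12 : 0 ≤ (X : ℝ) / B := by positivity
    linarith
  obtain ⟨X₀, hX₀⟩ := eventually_atTop.1 h1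
  refine ⟨X₀ * (4 * Nat.log 2 X₀ + 8) + 1, fun n c hn hc => ?_⟩
  rcases Nat.lt_or_ge (c + m) X₀ with h | h
  · have h2 : (c + m) * (4 * Nat.log 2 (c + m) + 8) ≤ X₀ * (4 * Nat.log 2 X₀ + 8) := by
      have h3 : Nat.log 2 (c + m) ≤ Nat.log 2 X₀ := Nat.log_mono_right h.le
      exact Nat.mul_le_mul h.le (by omega)
    omega
  · have h2 := hX₀ (c + m) h
    have hn0 : (1 : ℝ) ≤ n := by
      exact_mod_cast (by omega : 1 ≤ n)
    have h3 : (((c + m) * (4 * Nat.log 2 (c + m) + 8) : ℕ) : ℝ) ≤ n := by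
      push_cast
      have h4 : ((c : ℝ) + m) * (4 * (Nat.log 2 (c + m) : ℝ) + 8) ≤
          ((c : ℝ) + m) * (((c : ℝ) + m) / B) := by
        refine mul_le_mul_of_nonneg_left ?_ (by positivity)
        push_cast at h2
        exact h2
      refine h4.trans ?_
      rw [mul_div_assoc', div_le_iff₀ hB0]
      have h5 : ((c : ℝ) + m) * ((c : ℝ) + m) ≤ 2 * c ^ 2 + 2 * m ^ 2 := by
        nlinarith [sq_nonneg ((c : ℝ) - m)]
      have h6 : C * n ≤ |C| * n := mul_le_mul_of_nonneg_right (le_abs_self C) (by linarith)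
      have h7 : (m : ℝ) ^ 2 ≤ m ^ 2 * n := by
        have := sq_nonneg (m : ℝ)
        nlinarith
      rw [hB]
      nlinarith [sq_nonneg (m : ℝ), abs_nonneg C]
    exact_mod_cast h3

/-- **Solid minors.** -/
theorem solid_large (m : ℕ) : ∃ n₀ : ℕ, 1 ≤ n₀ ∧ ∀ n k : ℕ, n₀ ≤ n → k < n →
    0 < (Matrix.of fun i j : Fin m => (F (n + i) (k + j) : ℝ)).det := by
  obtain ⟨V₀, hV0, hbulk⟩ := bulk m
  obtain ⟨n₁, h₁⟩ := left_thr m (6 * V₀)
  obtain ⟨n₂, h₂⟩ := right_edge m (6 * V₀)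
  refine ⟨n₁ + n₂ + 1, by omega, fun n k hn hk => ?_⟩
  obtain ⟨a, rfl⟩ : ∃ a, n = a + 1 := ⟨n - 1, by omega⟩
  have ha : (0 : ℝ) < (a : ℝ) + 2 := by positivity
  have hk1 : (k : ℝ) + 1 ≤ (a : ℝ) + 1 := by exact_mod_cast hk
  have hk0 : (0 : ℝ) < (k : ℝ) + 1 := by positivity
  obtain ⟨θ, hθ⟩ := exists_mu (x := ((k : ℝ) + 1) / ((a : ℝ) + 2)) (by positivity) (by
    rw [div_lt_one ha]
    linarith)
  have hmu : ((a + 2 : ℕ) : ℝ) * mu θ = (k : ℝ) + 1 := by
    rw [hθ]
    push_cast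
    field_simp
  by_cases hV : V₀ ≤ ((a + 2 : ℕ) : ℝ) * va θ
  · exact hbulk a k θ hmu hV
  · push Not at hV
    have hV' : ((a : ℝ) + 2) * va θ < V₀ := by
      push_cast at hV
      exact hV
    have ha1 : (a : ℝ) + 2 ≤ 2 * ((a + 1 : ℕ) : ℝ) := by
      push_cast
      linarith [Nat.cast_nonneg (α := ℝ) a]
    rcases le_total θ 0 with h | h
    · -- the left region
      have h3 := va_neg h
      refine solid_pos k m (a + 1) (h₁ (a + 1) k (by omega) ?_)
      rw [hθ, div_pow, div_le_iff₀ (by positivity)] at h3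
      have h4 : ((k : ℝ) + 1) ^ 2 ≤ 3 * V₀ * ((a : ℝ) + 2) := by
        calc ((k : ℝ) + 1) ^ 2 ≤ 3 * va θ * ((a : ℝ) + 2) ^ 2 := h3
          _ = 3 * (((a : ℝ) + 2) * va θ) * ((a : ℝ) + 2) := by ring
          _ ≤ 3 * V₀ * ((a : ℝ) + 2) := by
            refine mul_le_mul_of_nonneg_right ?_ ha.le
            linarith
      have h5 : (k : ℝ) ^ 2 ≤ ((k : ℝ) + 1) ^ 2 :=
        pow_le_pow_left₀ (Nat.cast_nonneg k) (by linarith) 2
      nlinarith
    · -- the right edge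
      have h3 := va_pos' h
      have hyk : a + 1 - (a + 1 - k) = k := by omega
      have h6 := h₂ (a + 1) (a + 1 - k) (by omega) (by omega) (by omega) ?_
      · rw [hyk] at h6
        exact h6
      have hy : ((a + 1 - k : ℕ) : ℝ) = (a : ℝ) + 1 - k := by
        rw [Nat.cast_sub hk.le]
        push_cast
        ring
      rw [hy]
      have h7 : 1 - mu θ = ((a : ℝ) + 1 - k) / ((a : ℝ) + 2) := by
        rw [hθ]
        field_simp
        ring
      rw [h7, div_pow, div_le_iff₀ (by positivity)] at h3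
      have h4 : ((a : ℝ) + 1 - k) ^ 2 ≤ 3 * V₀ * ((a : ℝ) + 2) := by
        calc ((a : ℝ) + 1 - k) ^ 2 ≤ 3 * va θ * ((a : ℝ) + 2) ^ 2 := h3
          _ = 3 * (((a : ℝ) + 2) * va θ) * ((a : ℝ) + 2) := by ring
          _ ≤ 3 * V₀ * ((a : ℝ) + 2) := by
            refine mul_le_mul_of_nonneg_right ?_ ha.le
            linarith
      nlinarith

end Pool.Agent.BrentiBulk
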