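import Pool.Agent.BrentiBulk.Worp
import Pool.Agent.BrentiRegion.Region

/-!
# From solid minors to all minors, for matrices with a staircase of zeros
-/

set_option autoImplicit false

noncomputable section

namespace Pool.Agent.BrentiBulk

open Set Filter Topology Pool.Agent.BrentiRegion

/-- The perturbed triangle. -/
def Pt (ε : ℝ) (n k : ℕ) : ℝ := if k < n then (F n k : ℝ) else ε ^ ((k - n + 1) ^ 2)

theorem Pt_lim (n k : ℕ) (hn : 1 ≤ n) : Tendsto (fun ε => Pt ε n k) (𝓝[>] 0) (𝓝 (F n k : ℝ)) := by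
  unfold Pt
  by_cases h : k < n
  · simp only [if_pos h]
    exact tendsto_const_nhds
  · simp only [if_neg h]
    rw [F_vanish' n k hn (by omega), Int.cast_zero]
    have h1 : Tendsto (fun ε : ℝ => ε ^ ((k - n + 1) ^ 2)) (𝓝 0) (𝓝 (0 ^ ((k - n + 1) ^ 2))) :=
      (continuous_pow _).tendsto 0
    rw [zero_pow (by positivity)] at h1
    exact h1.mono_left nhdsWithin_le_nhds

theorem det_lim {m : ℕ} {l : Filter ℝ} (A : ℝ → Matrix (Fin m) (Fin m) ℝ)
    (B : Matrix (Fin m) (Fin m) ℝ) (h : ∀ i j, Tendsto (fun ε => A ε i j) l (𝓝 (B i j))) :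
    Tendsto (fun ε => (A ε).det) l (𝓝 B.det) := by
  have hc : Continuous fun A : Matrix (Fin m) (Fin m) ℝ => A.det := continuous_id.matrix_det
  exact (hc.tendsto _).comp (tendsto_pi_nhds.2 fun i => tendsto_pi_nhds.2 fun j => h i j)

/-- Solid minors outside of the triangle. -/
theorem solid_out (m n k : ℕ) (hk : n ≤ k) :
    ∀ᶠ ε in 𝓝[>] (0 : ℝ), 0 < (Matrix.of fun i j : Fin m => Pt ε (n + i) (k + j)).det := by
  obtain ⟨d, rfl⟩ := Nat.exists_eq_add_of_le hk
  set S : ℝ → Matrix (Fin m) (Fin m) ℝ := fun ε => Matrix.of fun i j : Fin m =>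
    if (i : ℕ) ≤ d + j then ε ^ (((j : ℤ) - (i : ℤ)).natAbs ^ 2)
    else (F (n + i) (n + d + j) : ℝ) * ε ^ (2 * (d + 1) * (i - j) - (d + 1) ^ 2) with hS
  have h1 : Tendsto (fun ε => (S ε).det) (𝓝[>] 0) (𝓝 (1 : Matrix (Fin m) (Fin m) ℝ).det) := by
    refine det_lim S 1 fun i j => ?_
    rw [hS]
    simp only [Matrix.of_apply]
    by_cases h : (i : ℕ) ≤ d + j
    · simp only [if_pos h]
      by_cases hij : i = j
      · subst hij
        simp
      · rw [Matrix.one_apply_ne hij]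
        have hne : ((j : ℤ) - (i : ℤ)).natAbs ^ 2 ≠ 0 := by
          have h2 : ((j : ℤ) - (i : ℤ)).natAbs ≠ 0 := by
            intro h3
            apply hij
            apply Fin.ext
            omega
          positivity
        have h2 : Tendsto (fun ε : ℝ => ε ^ (((j : ℤ) - (i : ℤ)).natAbs ^ 2)) (𝓝 0)
            (𝓝 (0 ^ (((j : ℤ) - (i : ℤ)).natAbs ^ 2))) := (continuous_pow _).tendsto 0
        rw [zero_pow hne] at h2
        exact h2.mono_left nhdsWithin_le_nhds
    · simp only [if_neg h]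
      have hij : i ≠ j := by
        rintro rfl
        omega
      rw [Matrix.one_apply_ne hij]
      have hne : 2 * (d + 1) * ((i : ℕ) - j) - (d + 1) ^ 2 ≠ 0 := by
        have h2 : d + 1 ≤ (i : ℕ) - j := by omega
        have h3 : 2 * (d + 1) * (d + 1) ≤ 2 * (d + 1) * ((i : ℕ) - j) := Nat.mul_le_mul_left _ h2
        have h4 : 2 * (d + 1) * (d + 1) = 2 * (d + 1) ^ 2 := by ring
        have h5 : 0 < (d + 1) ^ 2 := by positivity
        omega
      have h2 : Tendsto (fun ε : ℝ => ε ^ (2 * (d + 1) * ((i : ℕ) - j) - (d + 1) ^ 2)) (𝓝 0)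
          (𝓝 (0 ^ (2 * (d + 1) * ((i : ℕ) - j) - (d + 1) ^ 2))) := (continuous_pow _).tendsto 0
      rw [zero_pow hne] at h2
      have h3 := (h2.mono_left (nhdsWithin_le_nhds (s := Ioi 0))).const_mul
        (F (n + i) (n + d + j) : ℝ)
      rw [mul_zero] at h3
      exact h3
  rw [Matrix.det_one] at h1
  filter_upwards [h1.eventually_const_lt one_pos, self_mem_nhdsWithin] with ε h2 hε
  have hε0 : (0 : ℝ) < ε := hε
  -- the scaling
  have h3 : (Matrix.of fun i j : Fin m => ε ^ (2 * (d + 1) * (i : ℕ)) *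
      (Matrix.of fun i j : Fin m => Pt ε (n + i) (n + d + j)) i j) =
      Matrix.of fun i j : Fin m => ε ^ ((d + 1) ^ 2 + 2 * (d + 1) * (j : ℕ)) * S ε i j := by
    ext i j
    rw [hS]
    simp only [Matrix.of_apply]
    unfold Pt
    by_cases h : (i : ℕ) ≤ d + j
    · rw [if_pos h, if_neg (by omega), ← pow_add, ← pow_add]
      congr 1
      have h4 : n + d + (j : ℕ) - (n + i) + 1 = d + j - i + 1 := by omega
      rw [h4]
      zify [h]
      rw [sq_abs]
      ring
    · rw [if_neg h, if_pos (by omega)]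
      have h2' : d + 1 ≤ (i : ℕ) - j := by omega
      have h3' : 2 * (d + 1) * (d + 1) ≤ 2 * (d + 1) * ((i : ℕ) - j) := Nat.mul_le_mul_left _ h2'
      have h4' : 2 * (d + 1) * (d + 1) = 2 * (d + 1) ^ 2 := by ring
      have h5' : 0 < (d + 1) ^ 2 := by positivity
      have h6 : 2 * (d + 1) * (i : ℕ) = (d + 1) ^ 2 + 2 * (d + 1) * (j : ℕ) +
          (2 * (d + 1) * ((i : ℕ) - j) - (d + 1) ^ 2) := by
        have h7 : 2 * (d + 1) * ((i : ℕ) - j) = 2 * (d + 1) * i - 2 * (d + 1) * j :=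
          Nat.mul_sub _ _ _
        have h8 : 2 * (d + 1) * (j : ℕ) ≤ 2 * (d + 1) * i := Nat.mul_le_mul_left _ (by omega)
        omega
      rw [h6, pow_add]
      ring
  have h4 := congrArg Matrix.det h3
  rw [Matrix.det_mul_column, Matrix.det_mul_row] at h4
  have h5 : 0 < ∏ i : Fin m, ε ^ (2 * (d + 1) * (i : ℕ)) :=
    Finset.prod_pos fun i _ => pow_pos hε0 _
  have h6 : 0 < ∏ i : Fin m, ε ^ ((d + 1) ^ 2 + 2 * (d + 1) * (i : ℕ)) :=
    Finset.prod_pos fun i _ => pow_pos hε0 _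
  have h7 : 0 < (∏ i : Fin m, ε ^ (2 * (d + 1) * (i : ℕ))) *
      (Matrix.of fun i j : Fin m => Pt ε (n + i) (n + d + j)).det := by
    rw [h4]
    exact mul_pos h6 h2
  exact (mul_pos_iff_of_pos_left h5).1 h7

/-- Consecutive rows, arbitrary columns. -/
theorem rows_pos' (A : ℕ → ℕ → ℝ) (m n R : ℕ)
    (H : ∀ m' ≤ m, ∀ k, k + m' ≤ R →
      0 < (Matrix.of fun i j : Fin m' => A (n + i) (k + j)).det)
    (J : Fin m → ℕ) (hJ : StrictMono J) (hX : ∀ j, J j < R) :
    0 < (Matrix.of fun i j : Fin m => A (n + i) (J j)).det := by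
  rw [← Matrix.det_transpose]
  refine fekete m (fun i k => A (n + i) k) 0 R (fun m' k hm' _ hk => ?_) J hJ
    (fun i => ⟨Nat.zero_le _, hX i⟩)
  unfold cons
  rw [← Matrix.det_transpose]
  exact H m' hm' k hk

/-- Arbitrary rows, arbitrary columns. -/
theorem all_pos' (A : ℕ → ℕ → ℝ) (m n₁ R : ℕ)
    (H : ∀ m' ≤ m, ∀ n, n₁ ≤ n → n + m' ≤ R → ∀ k, k + m' ≤ R →
      0 < (Matrix.of fun i j : Fin m' => A (n + i) (k + j)).det)
    (I J : Fin m → ℕ) (hI : StrictMono I) (hJ : StrictMono J) (hX : ∀ j, J j < R)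
    (hn : ∀ i, n₁ ≤ I i) (hIR : ∀ i, I i < R) :
    0 < (Matrix.of fun i j : Fin m => A (I i) (J j)).det := by
  have h := fekete m (fun j n => if h : j < m then A n (J ⟨j, h⟩) else 0) n₁
    R (fun m' n hm' hn' hnR => ?_) I hI (fun i => ⟨hn i, hIR i⟩)
  · have h1 : (Matrix.of fun i j : Fin m => A (I i) (J j)) =
        (Matrix.of fun i j : Fin m =>
          (fun j n => if h : j < m then A n (J ⟨j, h⟩) else 0) (j : ℕ) (I i)) := by
      ext i j
      simp
    rw [h1]
    exact h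
  · have h2 := rows_pos' A m' n R (fun m'' hm'' k hk =>
        H m'' (hm''.trans hm') n hn' (by omega) k hk) (fun j => J (Fin.castLE hm' j))
      (fun a b hab => hJ (by simpa using hab)) (fun j => hX _)
    unfold cons
    have h1 : (Matrix.of fun i j : Fin m' => A (n + i) (J (Fin.castLE hm' j))) =
        (Matrix.of fun i j : Fin m' =>
          (fun j n => if h : j < m then A n (J ⟨j, h⟩) else 0) (j : ℕ) (n + i)) := by
      ext i j
      have hj : (j : ℕ) < m := lt_of_lt_of_le j.2 hm'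
      simp only [Matrix.of_apply]
      rw [dif_pos hj]
      rfl
    rw [← h1]
    exact h2

/-- **From solid minors to all minors.** -/
theorem stair (m n₁ : ℕ) (hn₁ : 1 ≤ n₁)
    (H : ∀ m' ≤ m, ∀ n k : ℕ, n₁ ≤ n → k < n →
      0 < (Matrix.of fun i j : Fin m' => (F (n + i) (k + j) : ℝ)).det)
    (I J : Fin m → ℕ) (hI : StrictMono I) (hJ : StrictMono J) (hn : ∀ i, n₁ ≤ I i) :
    0 ≤ (Matrix.of fun i j : Fin m => (F (I i) (J j) : ℝ)).det := by
  set R : ℕ := ∑ i, I i + ∑ i, J i + 1 with hR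
  have hIR : ∀ i, I i < R := fun i => by
    have := Finset.single_le_sum (fun i _ => Nat.zero_le (I i)) (Finset.mem_univ i)
    omega
  have hJR : ∀ i, J i < R := fun i => by
    have := Finset.single_le_sum (fun i _ => Nat.zero_le (J i)) (Finset.mem_univ i)
    omega
  -- the perturbed solid minors are positive
  have h1 : ∀ m' ≤ m, ∀ n, n₁ ≤ n → ∀ k,
      ∀ᶠ ε in 𝓝[>] (0 : ℝ), 0 < (Matrix.of fun i j : Fin m' => Pt ε (n + i) (k + j)).det := by
    intro m' hm' n hn' k
    rcases Nat.lt_or_ge k n with h | h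
    · have h2 := det_lim (l := 𝓝[>] (0 : ℝ))
        (fun ε => Matrix.of fun i j : Fin m' => Pt ε (n + i) (k + j))
        (Matrix.of fun i j : Fin m' => (F (n + i) (k + j) : ℝ))
        (fun i j => Pt_lim (n + i) (k + j) (by omega))
      exact h2.eventually_const_lt (H m' hm' n k hn' h)
    · exact solid_out m' n k h
  have h2 : ∀ᶠ ε in 𝓝[>] (0 : ℝ), ∀ m' ∈ Finset.range (m + 1), ∀ n ∈ Finset.range (R + 1),
      ∀ k ∈ Finset.range (R + 1), n₁ ≤ n →
        0 < (Matrix.of fun i j : Fin m' => Pt ε (n + i) (k + j)).det := by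
    rw [Filter.eventually_all_finset]
    intro m' hm'
    rw [Filter.eventually_all_finset]
    intro n _
    rw [Filter.eventually_all_finset]
    intro k _
    by_cases hn' : n₁ ≤ n
    · filter_upwards [h1 m' (by have := Finset.mem_range.1 hm'; omega) n hn' k] with ε hε _
      exact hε
    · exact Eventually.of_forall fun ε h => absurd h hn'
  have h3 : ∀ᶠ ε in 𝓝[>] (0 : ℝ), 0 ≤ (Matrix.of fun i j : Fin m => Pt ε (I i) (J j)).det := by
    filter_upwards [h2] with ε hε
    refine (all_pos' (Pt ε) m n₁ R (fun m' hm' n hn' hnR k hk => ?_) I J hI hJ hJR hn hIR).le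
    exact hε m' (Finset.mem_range.2 (by omega)) n (Finset.mem_range.2 (by omega)) k
      (Finset.mem_range.2 (by omega)) hn'
  have h4 := det_lim (l := 𝓝[>] (0 : ℝ))
    (fun ε => Matrix.of fun i j : Fin m => Pt ε (I i) (J j))
    (Matrix.of fun i j : Fin m => (F (I i) (J j) : ℝ))
    (fun i j => Pt_lim (I i) (J j) (hn₁.trans (hn i)))
  exact ge_of_tendsto h4 h3

end Pool.Agent.BrentiBulk
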