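import Pool.Agent.BrentiBulk.Combine
import Pool.Agent.BrentiBulk.Stair
import Pool.Agent.BrentiRegion.ToE

/-!
# Minors of a fixed order in the triangle of the problem (r = 1)
-/

set_option autoImplicit false

namespace Pool.Agent.BrentiBulk

open Pool.Agent.BrentiRegion

theorem M_det (E : ℕ → ℕ → ℤ) (h0 : ∀ k : ℕ, E 0 k = if k = 0 then 1 else 0)
    (h1 : ∀ n : ℕ, E (n + 1) 0 = E n 0)
    (h2 : ∀ n k : ℕ, E (n + 1) (k + 1) =
      ((k : ℤ) + 2) * E n (k + 1) + ((1 : ℤ) * (n : ℤ) - (k : ℤ)) * E n k)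
    (m : ℕ) (I J : Fin m → ℕ) (hI : ∀ i, 1 ≤ I i) :
    (((Matrix.of fun i j : Fin m =>
      if J j + 1 ≤ I i then E (I i) (I i - J j - 1) else 0).det : ℤ) : ℝ) =
      (Matrix.of fun i j : Fin m => (F (I i) (J j) : ℝ)).det := by
  rw [← cast_det (fun i j : Fin m => if J j + 1 ≤ I i then E (I i) (I i - J j - 1) else 0)]
  congr 1
  ext i j
  simp only [Matrix.of_apply]
  rw [entry' E h0 h1 h2 (I i) (J j) (hI i)]

/-- A common threshold for all orders `≤ m`. -/
theorem solid_large' (m : ℕ) : ∃ N : ℕ, 1 ≤ N ∧ ∀ m' ≤ m, ∀ n k : ℕ, N ≤ n → k < n →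
    0 < (Matrix.of fun i j : Fin m' => (F (n + i) (k + j) : ℝ)).det := by
  choose f hf1 hf using solid_large
  refine ⟨∑ a ∈ Finset.range (m + 1), f a, ?_, fun m' hm' n k hn hk => hf m' n k ?_ hk⟩
  · exact (hf1 0).trans (Finset.single_le_sum (fun a _ => Nat.zero_le (f a))
      (Finset.mem_range.2 (Nat.succ_pos m)))
  · exact (Finset.single_le_sum (fun a _ => Nat.zero_le (f a))
      (Finset.mem_range.2 (Nat.lt_succ_of_le hm'))).trans hn

/-- The main theorem. -/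
theorem fixed_order (m : ℕ) : ∃ N : ℕ, ∀ E : ℕ → ℕ → ℤ,
    (∀ k : ℕ, E 0 k = if k = 0 then 1 else 0) →
    (∀ n : ℕ, E (n + 1) 0 = E n 0) →
    (∀ n k : ℕ, E (n + 1) (k + 1) =
        ((k : ℤ) + 2) * E n (k + 1) + ((1 : ℤ) * (n : ℤ) - (k : ℤ)) * E n k) →
    ∀ n₁ : ℕ,
      (∀ m' ≤ m, ∀ n k : ℕ, n₁ ≤ n → n < N → k < n →
        0 < (Matrix.of fun i j : Fin m' =>
          if (k + j) + 1 ≤ n + i then E (n + i) (n + i - (k + j) - 1) else 0).det) →
      ∀ I J : Fin m → ℕ, StrictMono I → StrictMono J → (∀ i, n₁ ≤ I i) →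
        0 ≤ (Matrix.of fun i j : Fin m =>
          if J j + 1 ≤ I i then E (I i) (I i - J j - 1) else 0).det := by
  obtain ⟨N, hN1, hN⟩ := solid_large' m
  refine ⟨N, fun E h0 h1 h2 n₁ H I J hI hJ hn => ?_⟩
  by_cases hz : ∃ i, I i = 0
  · obtain ⟨i, hi⟩ := hz
    rw [Matrix.det_eq_zero_of_row_eq_zero i (fun j => by
      simp only [Matrix.of_apply]
      rw [if_neg (by omega)])]
  · have hz' : ∀ i, 1 ≤ I i := fun i => Nat.one_le_iff_ne_zero.2 fun h => hz ⟨i, h⟩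
    have h3 := stair m (max n₁ 1) (le_max_right _ _) (fun m' hm' n k hn' hk => ?_) I J hI hJ
      (fun i => max_le (hn i) (hz' i))
    · rw [← M_det E h0 h1 h2 m I J hz'] at h3
      exact_mod_cast h3
    · rcases Nat.lt_or_ge n N with h | h
      · have h4 := H m' hm' n k ((le_max_left _ _).trans hn') h hk
        have h5 := M_det E h0 h1 h2 m' (fun i => n + i) (fun j => k + j)
          (fun i => by have := (le_max_right n₁ 1).trans hn'; omega)
        rw [← h5]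
        exact_mod_cast h4
      · exact hN m' hm' n k h hk

end Pool.Agent.BrentiBulk
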