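import Mathlib

/-!
# The Hankel determinants of the Gauss measure are positive
-/

set_option autoImplicit false

noncomputable section

namespace Pool.Agent.BrentiBulk

open MeasureTheory Set Filter Topology

/-- The moments of the Gauss weight. -/
def G (k : ℕ) : ℝ := ∫ s : ℝ, s ^ k * Real.exp (-(s ^ 2 / 2))

theorem integrable_G (k : ℕ) : Integrable fun s : ℝ => s ^ k * Real.exp (-(s ^ 2 / 2)) := by
  have h := integrable_rpow_mul_exp_neg_mul_sq (b := 1 / 2) (by norm_num) (s := k)
    (by have := Nat.cast_nonneg (α := ℝ) k; linarith)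
  refine h.congr (ae_of_all _ fun s => ?_)
  simp only [Real.rpow_natCast]
  congr 2
  ring

theorem gauss_posDef (m : ℕ) : (Matrix.of fun i j : Fin m => G (i + j)).PosDef := by
  refine Matrix.PosDef.of_dotProduct_mulVec_pos ?_ fun x hx => ?_
  · ext i j
    simp [Matrix.conjTranspose_apply, add_comm]
  · set p : ℝ → ℝ := fun s => ∑ i : Fin m, x i * s ^ (i : ℕ) with hp
    have hpc : Continuous p := by
      rw [hp]
      fun_prop
    have hint : ∀ i j : Fin m, Integrable fun s : ℝ =>
        x i * x j * (s ^ ((i : ℕ) + j) * Real.exp (-(s ^ 2 / 2))) := fun i j =>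
      (integrable_G _).const_mul _
    have h1 : ∀ s : ℝ, p s ^ 2 * Real.exp (-(s ^ 2 / 2)) =
        ∑ i : Fin m, ∑ j : Fin m, x i * x j * (s ^ ((i : ℕ) + j) * Real.exp (-(s ^ 2 / 2))) := by
      intro s
      rw [hp, sq, Finset.sum_mul_sum, Finset.sum_mul]
      refine Finset.sum_congr rfl fun i _ => ?_
      rw [Finset.sum_mul]
      refine Finset.sum_congr rfl fun j _ => ?_
      rw [pow_add]
      ring
    have h2 : Integrable fun s => p s ^ 2 * Real.exp (-(s ^ 2 / 2)) := by
      simp only [h1]
      exact integrable_finsetSum _ fun i _ => integrable_finsetSum _ fun j _ => hint i j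
    have h3 : star x ⬝ᵥ ((Matrix.of fun i j : Fin m => G (i + j)).mulVec x) =
        ∫ s, p s ^ 2 * Real.exp (-(s ^ 2 / 2)) := by
      simp only [h1]
      rw [integral_finsetSum _ fun i _ => integrable_finsetSum _ fun j _ => hint i j]
      simp only [dotProduct, Matrix.mulVec, Matrix.of_apply, Finset.mul_sum]
      refine Finset.sum_congr rfl fun i _ => ?_
      rw [integral_finsetSum _ fun j _ => hint i j]
      refine Finset.sum_congr rfl fun j _ => ?_
      rw [integral_const_mul]
      simp only [star_trivial]
      unfold G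
      ring
    rw [h3, integral_pos_iff_support_of_nonneg (fun s => by positivity) h2]
    have h4 : IsOpen (Function.support fun s => p s ^ 2 * Real.exp (-(s ^ 2 / 2))) := by
      have hc : Continuous fun s => p s ^ 2 * Real.exp (-(s ^ 2 / 2)) := by fun_prop
      exact hc.isOpen_support
    refine h4.measure_pos _ ?_
    by_contra hne
    rw [Set.not_nonempty_iff_eq_empty, Function.support_eq_empty_iff] at hne
    have h5 : ∀ s, p s = 0 := by
      intro s
      have h6 := congrFun hne s
      simp only [Pi.zero_apply, mul_eq_zero, Real.exp_ne_zero, or_false] at h6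
      exact pow_eq_zero_iff two_ne_zero |>.1 h6
    -- the polynomial is zero
    set q : Polynomial ℝ := ∑ i : Fin m, Polynomial.C (x i) * Polynomial.X ^ (i : ℕ) with hq
    have h6 : q = 0 := by
      refine Polynomial.funext fun s => ?_
      rw [hq, Polynomial.eval_finsetSum, Polynomial.eval_zero, ← h5 s]
      simp [hp]
    apply hx
    funext i
    have h7 := congrArg (fun r => Polynomial.coeff r (i : ℕ)) h6
    simp only [hq, Polynomial.finsetSum_coeff, Polynomial.coeff_C_mul, Polynomial.coeff_X_pow,
      Polynomial.coeff_zero] at h7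
    rw [Finset.sum_eq_single i] at h7
    · simpa using h7
    · intro j _ hj
      rw [if_neg, mul_zero]
      intro h
      exact hj (Fin.ext h.symm)
    · intro h
      exact absurd (Finset.mem_univ i) h

theorem gauss_det_pos (m : ℕ) : 0 < (Matrix.of fun i j : Fin m => G (i + j)).det :=
  (gauss_posDef m).det_pos

end Pool.Agent.BrentiBulk
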