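import Pool.Agent.BrentiBulk.Tilt3
import Pool.Agent.BrentiRegion.Euler

/-!
# The Fourier representation of the Eulerian numbers
-/

set_option autoImplicit false

noncomputable section

namespace Pool.Agent.BrentiBulk

open MeasureTheory Set Filter Topology Pool.Agent.BrentiRegion

/-- The Laplace transform of the uniform distribution. -/
def ph (s : ℂ) : ℂ := ∫ u in (0 : ℝ)..1, Complex.exp (s * u)

theorem ph_mul (s : ℂ) : s * ph s = Complex.exp s - 1 := exp_integral s

theorem ph_zero : ph 0 = 1 := by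
  unfold ph
  simp

theorem ph_eq : ph = dslope Complex.exp 0 := by
  funext s
  by_cases hs : s = 0
  · subst hs
    rw [dslope_same, ph_zero]
    simp
  · rw [dslope_of_ne _ hs, slope_def_field, sub_zero, Complex.exp_zero, ← ph_mul]
    field_simp

theorem ph_diff : Differentiable ℂ ph := by
  rw [ph_eq]
  have h := (Complex.differentiableOn_dslope (f := Complex.exp) (s := univ) (c := 0)
    univ_mem).2 Complex.differentiable_exp.differentiableOn
  exact differentiableOn_univ.1 h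

theorem ph_deriv (s : ℂ) : ph s + s * deriv ph s = Complex.exp s := by
  have h1 : HasDerivAt (fun s => s * ph s) (1 * ph s + s * deriv ph s) s :=
    (hasDerivAt_id s).mul (ph_diff s).hasDerivAt
  have h2 : HasDerivAt (fun s => s * ph s) (Complex.exp s) s := by
    have h3 : (fun s => s * ph s) = fun s => Complex.exp s - 1 := funext ph_mul
    rw [h3]
    exact (Complex.hasDerivAt_exp s).sub_const 1
  have h3 := h1.unique h2
  rwa [one_mul] at h3

/-- The line of integration. -/
def sl (θ t : ℝ) : ℂ := (θ : ℂ) + Complex.I * t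

theorem ph_sl (θ t : ℝ) : ph (sl θ t) = chi θ t * (Z θ : ℂ) := (chi_integral θ t).symm

theorem continuous_sl (θ : ℝ) : Continuous (sl θ) := by
  unfold sl
  fun_prop

theorem hasDerivAt_sl (θ t : ℝ) : HasDerivAt (sl θ) Complex.I t := by
  have h1 : HasDerivAt (fun t : ℝ => (t : ℂ)) 1 t := Complex.ofRealCLM.hasDerivAt
  have h2 := (h1.const_mul Complex.I).const_add (θ : ℂ)
  rw [mul_one] at h2
  exact h2

theorem ph_norm_le (θ t : ℝ) : ‖ph (sl θ t)‖ ≤ Z θ := by
  rw [ph_sl, norm_mul, Complex.norm_real, Real.norm_of_nonneg (Z_pos θ).le]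
  have := chi_norm θ t
  nlinarith [Z_pos θ]

theorem norm_exp_sl (θ t : ℝ) : ‖Complex.exp (sl θ t)‖ = Real.exp θ := by
  rw [Complex.norm_exp]
  simp [sl]

/-- The constant of the decay. -/
def cph (θ : ℝ) : ℝ := Z θ ^ 2 + (Real.exp θ + 1) ^ 2

theorem ph_sq_le (θ t : ℝ) : ‖ph (sl θ t)‖ ^ 2 ≤ cph θ * (1 + t ^ 2)⁻¹ := by
  have h1 := ph_norm_le θ t
  have h2 : |t| * ‖ph (sl θ t)‖ ≤ Real.exp θ + 1 := by
    have h3 : |t| ≤ ‖sl θ t‖ := by
      have h4 := Complex.abs_im_le_norm (sl θ t)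
      simpa [sl] using h4
    calc |t| * ‖ph (sl θ t)‖ ≤ ‖sl θ t‖ * ‖ph (sl θ t)‖ :=
          mul_le_mul_of_nonneg_right h3 (norm_nonneg _)
      _ = ‖Complex.exp (sl θ t) - 1‖ := by rw [← norm_mul, ph_mul]
      _ ≤ ‖Complex.exp (sl θ t)‖ + ‖(1 : ℂ)‖ := norm_sub_le _ _
      _ = Real.exp θ + 1 := by rw [norm_exp_sl, norm_one]
  have h3 : 0 < 1 + t ^ 2 := by positivity
  rw [← div_eq_mul_inv, le_div_iff₀ h3]
  unfold cph
  have h4 : (|t| * ‖ph (sl θ t)‖) ^ 2 ≤ (Real.exp θ + 1) ^ 2 :=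
    pow_le_pow_left₀ (by positivity) h2 2
  have h5 : ‖ph (sl θ t)‖ ^ 2 ≤ Z θ ^ 2 := pow_le_pow_left₀ (norm_nonneg _) h1 2
  rw [mul_pow, sq_abs] at h4
  nlinarith

/-- The integrand. -/
def W (N : ℕ) (x : ℝ) (θ t : ℝ) : ℂ := ph (sl θ t) ^ N * Complex.exp (-(sl θ t * x))

theorem continuous_W (N : ℕ) (x θ : ℝ) : Continuous (W N x θ) := by
  unfold W
  have h1 := ph_diff.continuous
  have h2 := continuous_sl θ
  fun_prop

theorem norm_exp_neg_sl (θ t x : ℝ) : ‖Complex.exp (-(sl θ t * x))‖ = Real.exp (-(θ * x)) := by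
  rw [Complex.norm_exp]
  simp [sl]

theorem W_norm (N : ℕ) (x θ t : ℝ) :
    ‖W (N + 2) x θ t‖ ≤ Real.exp (-(θ * x)) * Z θ ^ N * cph θ * (1 + t ^ 2)⁻¹ := by
  unfold W
  rw [norm_mul, norm_exp_neg_sl, norm_pow, pow_add]
  have h1 := ph_sq_le θ t
  have h2 : ‖ph (sl θ t)‖ ^ N ≤ Z θ ^ N := pow_le_pow_left₀ (norm_nonneg _) (ph_norm_le θ t) N
  have h3 : 0 ≤ Z θ ^ N := pow_nonneg (Z_pos θ).le N
  have h4 := Real.exp_pos (-(θ * x))
  calc ‖ph (sl θ t)‖ ^ N * ‖ph (sl θ t)‖ ^ 2 * Real.exp (-(θ * x)) ≤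
        Z θ ^ N * (cph θ * (1 + t ^ 2)⁻¹) * Real.exp (-(θ * x)) := by
        gcongr
    _ = _ := by ring

theorem integrable_W (N : ℕ) (x θ : ℝ) : Integrable (W (N + 2) x θ) := by
  refine Integrable.mono' ((integrable_inv_one_add_sq.const_mul
    (Real.exp (-(θ * x)) * Z θ ^ N * cph θ))) (continuous_W _ _ _).aestronglyMeasurable ?_
  exact ae_of_all _ fun t => W_norm N x θ t

/-- The integrals. -/
def J (N : ℕ) (x θ : ℝ) : ℂ := ∫ t, W N x θ t

/-- The function whose derivative is integrated. -/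
def Gf (N : ℕ) (x θ t : ℝ) : ℂ := (Complex.exp (sl θ t) - 1) * W N x θ t

theorem tendsto_inv_sq (C : ℝ) (l : Filter ℝ) (hl : Tendsto (fun t : ℝ => |t|) l atTop) :
    Tendsto (fun t : ℝ => C * (1 + t ^ 2)⁻¹) l (𝓝 0) := by
  have h1 : Tendsto (fun t : ℝ => 1 + t ^ 2) l atTop := by
    refine tendsto_atTop_mono (fun t => ?_) hl
    nlinarith [sq_abs t, sq_nonneg (|t| - 1), abs_nonneg t]
  have h2 := (tendsto_inv_atTop_zero.comp h1).const_mul C
  rw [mul_zero] at h2
  exact h2

theorem tendsto_Gf (N : ℕ) (x θ : ℝ) (l : Filter ℝ) (hl : Tendsto (fun t : ℝ => |t|) l atTop) :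
    Tendsto (Gf (N + 2) x θ) l (𝓝 0) := by
  rw [tendsto_zero_iff_norm_tendsto_zero]
  refine squeeze_zero (fun t => norm_nonneg _) (fun t => ?_)
    (tendsto_inv_sq ((Real.exp θ + 1) * (Real.exp (-(θ * x)) * Z θ ^ N * cph θ)) l hl)
  unfold Gf
  rw [norm_mul, mul_assoc]
  refine mul_le_mul ?_ (W_norm N x θ t) (norm_nonneg _) (by positivity)
  calc ‖Complex.exp (sl θ t) - 1‖ ≤ ‖Complex.exp (sl θ t)‖ + ‖(1 : ℂ)‖ := norm_sub_le _ _
    _ = Real.exp θ + 1 := by rw [norm_exp_sl, norm_one]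

theorem W_shift (N : ℕ) (x θ t : ℝ) : Complex.exp (sl θ t) * W N x θ t = W N (x - 1) θ t := by
  unfold W
  rw [mul_left_comm, ← Complex.exp_add]
  congr 2
  push_cast
  ring

theorem hasDerivAt_Gf (N : ℕ) (x θ t : ℝ) : HasDerivAt (Gf (N + 1) x θ)
    (Complex.I * (((N : ℂ) + 2 - x) * W (N + 1) (x - 1) θ t - ((N : ℂ) + 1) * W (N + 2) x θ t +
      x * W (N + 1) x θ t)) t := by
  have hs := hasDerivAt_sl θ t
  have h1 : HasDerivAt (fun t => Complex.exp (sl θ t) - 1) (Complex.exp (sl θ t) * Complex.I) t :=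
    hs.cexp.sub_const 1
  have h2 : HasDerivAt (fun t => ph (sl θ t)) (deriv ph (sl θ t) * Complex.I) t :=
    (ph_diff (sl θ t)).hasDerivAt.comp t hs
  have h3 := h2.pow (N + 1)
  have h4 : HasDerivAt (fun t => Complex.exp (-(sl θ t * x)))
      (Complex.exp (-(sl θ t * x)) * (-(Complex.I * x))) t := (hs.mul_const (x : ℂ)).neg.cexp
  have h5 := h1.mul (h3.mul h4)
  refine h5.congr_deriv ?_
  have hd := ph_deriv (sl θ t)
  have hm := ph_mul (sl θ t)
  simp only [← W_shift]
  unfold W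
  simp only [Pi.mul_apply, Pi.pow_apply, Nat.add_sub_cancel]
  push_cast
  have key : (Complex.exp (sl θ t) - 1) * deriv ph (sl θ t) =
      ph (sl θ t) * (Complex.exp (sl θ t) - ph (sl θ t)) := by
    rw [← hm, ← hd]
    ring
  linear_combination ((N : ℂ) + 1) * ph (sl θ t) ^ N * Complex.I *
    Complex.exp (-(sl θ t * x)) * key

theorem recurrence (N : ℕ) (x θ : ℝ) :
    ((N : ℂ) + 2) * J (N + 3) x θ =
      ((N : ℂ) + 3 - x) * J (N + 2) (x - 1) θ + x * J (N + 2) x θ := by
  have i1 : Integrable fun t => (((N + 1 : ℕ) : ℂ) + 2 - x) * W (N + 1 + 1) (x - 1) θ t :=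
    (integrable_W N (x - 1) θ).const_mul (((N + 1 : ℕ) : ℂ) + 2 - x)
  have i2 : Integrable fun t => (((N + 1 : ℕ) : ℂ) + 1) * W (N + 1 + 2) x θ t :=
    (integrable_W (N + 1) x θ).const_mul (((N + 1 : ℕ) : ℂ) + 1)
  have i3 : Integrable fun t => (x : ℂ) * W (N + 1 + 1) x θ t :=
    (integrable_W N x θ).const_mul (x : ℂ)
  have i12 : Integrable fun t => (((N + 1 : ℕ) : ℂ) + 2 - x) * W (N + 1 + 1) (x - 1) θ t -
      (((N + 1 : ℕ) : ℂ) + 1) * W (N + 1 + 2) x θ t := i1.sub i2
  have h1 := integral_of_hasDerivAt_of_tendsto (f := Gf (N + 2) x θ) (m := 0) (n := 0)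
    (fun t => hasDerivAt_Gf (N + 1) x θ t) ((i12.add i3).const_mul Complex.I)
    (tendsto_Gf N x θ atBot tendsto_abs_atBot_atTop)
    (tendsto_Gf N x θ atTop tendsto_abs_atTop_atTop)
  rw [integral_const_mul, integral_add i12 i3, integral_sub i1 i2, integral_const_mul,
    integral_const_mul, integral_const_mul, sub_zero] at h1
  have h2 := (mul_eq_zero.1 h1).resolve_left Complex.I_ne_zero
  unfold J
  push_cast at h2
  linear_combination -h2

/-! ### The base case -/

theorem ph_moment (s : ℂ) : s * ∫ u in (0 : ℝ)..1, (u : ℂ) * Complex.exp (s * u) =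
    Complex.exp s - ph s := by
  have h1 : ∀ u ∈ uIcc (0 : ℝ) 1, HasDerivAt (fun u : ℝ => (u : ℂ) * Complex.exp (s * u))
      (1 * Complex.exp (s * u) + u * (Complex.exp (s * u) * (s * 1))) u := by
    intro u _
    have h0 : HasDerivAt (fun t : ℝ => (t : ℂ)) 1 u := Complex.ofRealCLM.hasDerivAt
    exact h0.mul ((h0.const_mul s).cexp)
  have h2 := intervalIntegral.integral_eq_sub_of_hasDerivAt h1
    (by apply Continuous.intervalIntegrable; fun_prop)
  have h3 : ∀ u : ℝ, 1 * Complex.exp (s * u) + u * (Complex.exp (s * u) * (s * 1)) =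
      Complex.exp (s * u) + s * (u * Complex.exp (s * u)) := by
    intro u
    ring
  simp only [h3] at h2
  rw [intervalIntegral.integral_add (by apply Continuous.intervalIntegrable; fun_prop)
    (by apply Continuous.intervalIntegrable; fun_prop), intervalIntegral.integral_const_mul] at h2
  simp only [Complex.ofReal_one, mul_one, one_mul, Complex.ofReal_zero, zero_mul, sub_zero] at h2
  rw [← h2]
  unfold ph
  ring

/-- The hat function. -/
def hat (u : ℝ) : ℝ := max 0 (1 - |u - 1|)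

theorem continuous_hat : Continuous hat := by
  unfold hat
  fun_prop

theorem hat_left {u : ℝ} (h0 : 0 ≤ u) (h1 : u ≤ 1) : hat u = u := by
  unfold hat
  rw [abs_of_nonpos (by linarith), max_eq_right (by linarith)]
  ring

theorem hat_right {u : ℝ} (h0 : 1 ≤ u) (h1 : u ≤ 2) : hat u = 2 - u := by
  unfold hat
  rw [abs_of_nonneg (by linarith), max_eq_right (by linarith)]
  ring

theorem hat_out {u : ℝ} (h : u ≤ 0 ∨ 2 ≤ u) : hat u = 0 := by
  unfold hat
  rcases h with h | h
  · rw [abs_of_nonpos (by linarith), max_eq_left (by linarith)]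
  · rw [abs_of_nonneg (by linarith), max_eq_left (by linarith)]

theorem hat_integral (s : ℂ) : ∫ u : ℝ, (hat u : ℂ) * Complex.exp (s * u) = ph s ^ 2 := by
  have h0 : ∫ u : ℝ, (hat u : ℂ) * Complex.exp (s * u) =
      ∫ u in (0 : ℝ)..2, (hat u : ℂ) * Complex.exp (s * u) := by
    rw [intervalIntegral.integral_of_le zero_le_two]
    symm
    refine setIntegral_eq_integral_of_forall_compl_eq_zero fun u hu => ?_
    rw [hat_out, Complex.ofReal_zero, zero_mul]
    by_contra h
    push Not at h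
    exact hu ⟨h.1, h.2.le⟩
  have hc : Continuous fun u : ℝ => (hat u : ℂ) * Complex.exp (s * u) := by
    have := continuous_hat
    fun_prop
  rw [h0, ← intervalIntegral.integral_add_adjacent_intervals
    (hc.intervalIntegrable 0 1) (hc.intervalIntegrable 1 2)]
  have h1 : ∫ u in (0 : ℝ)..1, (hat u : ℂ) * Complex.exp (s * u) =
      ∫ u in (0 : ℝ)..1, (u : ℂ) * Complex.exp (s * u) := by
    refine intervalIntegral.integral_congr fun u hu => ?_
    rw [uIcc_of_le zero_le_one] at hu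
    simp only [hat_left hu.1 hu.2]
  have h2 : ∫ u in (1 : ℝ)..2, (hat u : ℂ) * Complex.exp (s * u) =
      Complex.exp s * (ph s - ∫ u in (0 : ℝ)..1, (u : ℂ) * Complex.exp (s * u)) := by
    have h3 : ∫ u in (1 : ℝ)..2, (hat u : ℂ) * Complex.exp (s * u) =
        ∫ u in (1 : ℝ)..2, ((2 - u : ℝ) : ℂ) * Complex.exp (s * u) := by
      refine intervalIntegral.integral_congr fun u hu => ?_
      rw [uIcc_of_le one_le_two] at hu
      simp only [hat_right hu.1 hu.2]
    have h4 := intervalIntegral.integral_comp_add_right (a := 0) (b := 1)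
      (fun u : ℝ => ((2 - u : ℝ) : ℂ) * Complex.exp (s * u)) 1
    rw [h3, show ∫ u in (1 : ℝ)..2, ((2 - u : ℝ) : ℂ) * Complex.exp (s * u) =
      ∫ u in (0 + 1 : ℝ)..(1 + 1), ((2 - u : ℝ) : ℂ) * Complex.exp (s * u) by norm_num, ← h4]
    have h5 : ∀ u : ℝ, ((2 - (u + 1) : ℝ) : ℂ) * Complex.exp (s * (u + 1 : ℝ)) =
        Complex.exp s * (Complex.exp (s * u) - u * Complex.exp (s * u)) := by
      intro u
      push_cast
      rw [mul_add, Complex.exp_add, mul_one]
      ring
    simp only [h5]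
    rw [intervalIntegral.integral_const_mul, intervalIntegral.integral_sub
      (by apply Continuous.intervalIntegrable; fun_prop)
      (by apply Continuous.intervalIntegrable; fun_prop)]
    rfl
  rw [h1, h2]
  have hm := ph_moment s
  have hp := ph_mul s
  set P := ∫ u in (0 : ℝ)..1, (u : ℂ) * Complex.exp (s * u) with hP
  -- `P + e (φ - P) = φ²`, as `(1 - e) P = -s φ P = -φ (e - φ)`
  linear_combination P * hp - ph s * hm

theorem base (x θ : ℝ) : J 2 x θ = 2 * Real.pi * (hat x : ℂ) := by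
  -- the function `hat u e^{θ u}`
  set f : ℝ → ℂ := fun u => (hat u : ℂ) * Complex.exp (θ * u) with hf
  have hfc : Continuous f := by
    have := continuous_hat
    fun_prop
  have hfs : HasCompactSupport f := by
    refine HasCompactSupport.intro (isCompact_Icc (a := (0 : ℝ)) (b := 2)) fun u hu => ?_
    rw [hf]
    simp only
    rw [hat_out, Complex.ofReal_zero, zero_mul]
    by_contra h
    push Not at h
    exact hu ⟨h.1.le, h.2.le⟩
  have hfi : Integrable f := hfc.integrable_of_hasCompactSupport hfs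
  have hF : ∀ w : ℝ, FourierTransform.fourier f w = ph (sl θ (-2 * Real.pi * w)) ^ 2 := by
    intro w
    rw [Real.fourier_real_eq_integral_exp_smul, ← hat_integral]
    congr 1
    funext u
    rw [hf]
    simp only [smul_eq_mul]
    rw [mul_left_comm, ← Complex.exp_add]
    congr 2
    unfold sl
    push_cast
    ring
  have hFi : Integrable (FourierTransform.fourier f) := by
    have h1 : Integrable (fun t : ℝ => ph (sl θ t) ^ 2) := by
      have h2 := integrable_W 0 0 θ
      refine h2.congr (ae_of_all _ fun t => ?_)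
      unfold W
      simp
    have h3 := h1.comp_mul_left' (R := -2 * Real.pi) (by
      have := Real.pi_pos
      positivity)
    exact h3.congr (ae_of_all _ fun w => (hF w).symm)
  have hinv := congrFun (hfc.fourierInv_fourier_eq hfi hFi) x
  rw [Real.fourierInv_eq'] at hinv
  have h1 : ∀ w : ℝ, Complex.exp (((2 * Real.pi * inner ℝ w x : ℝ) : ℂ) * Complex.I) •
      FourierTransform.fourier f w =
      Complex.exp (θ * x) * W 2 x θ (-2 * Real.pi * w) := by
    intro w
    rw [hF]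
    unfold W sl
    rw [smul_eq_mul, mul_left_comm, ← Complex.exp_add, mul_comm]
    congr 2
    simp only [RCLike.inner_apply, conj_trivial]
    push_cast
    ring
  simp only [h1] at hinv
  rw [integral_const_mul, Measure.integral_comp_mul_left (W 2 x θ) (-2 * Real.pi), hf] at hinv
  have hpi := Real.pi_pos
  have h2 : |(-2 * Real.pi)⁻¹| = (2 * Real.pi)⁻¹ := by
    rw [show -2 * Real.pi = -(2 * Real.pi) by ring, inv_neg, abs_neg, abs_of_pos (by positivity)]
  rw [h2] at hinv
  have h3 : Complex.exp (θ * x) ≠ 0 := Complex.exp_ne_zero _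
  have h4 : ((2 * Real.pi : ℝ) : ℂ) ≠ 0 := by
    rw [Ne, Complex.ofReal_eq_zero]
    positivity
  have h5 : ∫ t, W 2 x θ t = J 2 x θ := rfl
  have hinv' : Complex.exp (θ * x) * (((2 * Real.pi : ℝ)⁻¹ : ℝ) * J 2 x θ) =
      Complex.exp (θ * x) * (hat x : ℂ) := by
    rw [mul_comm (Complex.exp (θ * x)) (hat x : ℂ)]
    rw [h5, Complex.real_smul] at hinv
    exact hinv
  have h6 := mul_left_cancel₀ h3 hinv'
  have h8 : 2 * (Real.pi : ℂ) = ((2 * Real.pi : ℝ) : ℂ) := by push_cast; ring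
  rw [← h6, h8, ← mul_assoc, ← Complex.ofReal_mul, mul_inv_cancel₀ (by positivity),
    Complex.ofReal_one, one_mul]

theorem J_nonpos (N : ℕ) (θ : ℝ) : ∀ x : ℤ, x ≤ 0 → J (N + 2) x θ = 0 := by
  induction N with
  | zero =>
    intro x hx
    rw [zero_add, base, hat_out, Complex.ofReal_zero, mul_zero]
    left
    exact_mod_cast hx
  | succ N ih =>
    intro x hx
    have h1 := recurrence N (x : ℝ) θ
    have h2 := ih (x - 1) (by omega)
    push_cast at h2
    rw [h2, ih x hx, mul_zero, mul_zero, add_zero] at h1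
    refine (mul_eq_zero.1 h1).resolve_left ?_
    have h3 : ((N : ℂ) + 2) = ((N + 2 : ℕ) : ℂ) := by push_cast; ring
    rw [h3, Nat.cast_eq_zero]
    omega

/-- **The Fourier representation of the Eulerian numbers.** -/
theorem J_eq (n : ℕ) (θ : ℝ) : ∀ k : ℕ,
    ((n + 1).factorial : ℂ) * J (n + 2) ((k : ℝ) + 1) θ = 2 * Real.pi * (F (n + 1) k : ℂ) := by
  induction n with
  | zero =>
    intro k
    rw [zero_add, zero_add, base]
    rcases k with _ | k
    · rw [hat_right (by simp) (by norm_num), F_col]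
      norm_num
    · rw [hat_out (Or.inr (by push_cast; linarith [Nat.cast_nonneg (α := ℝ) k])),
        F_vanish 0 k (Nat.zero_le k)]
      simp
  | succ n ih =>
    intro k
    have h1 := recurrence n ((k : ℝ) + 1) θ
    have h2 := ih k
    rw [show (k : ℝ) + 1 - 1 = k by ring] at h1
    have hf : ((n + 1 + 1).factorial : ℂ) = ((n : ℂ) + 2) * ((n + 1).factorial : ℂ) := by
      rw [Nat.factorial_succ (n + 1)]
      push_cast
      ring
    rw [hf]
    rcases k with _ | k
    · have h3 := J_nonpos n θ 0 le_rfl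
      rw [Int.cast_zero] at h3
      rw [F_col] at h2 ⊢
      simp only [CharP.cast_eq_zero, zero_add, Complex.ofReal_one, one_mul, h3, mul_zero] at h1 h2 ⊢
      linear_combination ((n + 1).factorial : ℂ) * h1 + h2
    · have h3 := ih k
      rw [F_succ (n + 1) k]
      rw [show ((k + 1 : ℕ) : ℝ) = (k : ℝ) + 1 by push_cast; ring] at h1 h2 ⊢
      push_cast at h1 h2 h3 ⊢
      linear_combination ((n + 1).factorial : ℂ) * h1 + ((n : ℂ) + 3 - (k + 2)) * h3 +
        ((k : ℂ) + 2) * h2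

end Pool.Agent.BrentiBulk
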