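import Mathlib

/-!
# The exponentially tilted uniform distribution on `[0, 1]`
-/

set_option autoImplicit false

noncomputable section

namespace Pool.Agent.BrentiBulk

open MeasureTheory intervalIntegral Set Filter Topology

/-- The mass. -/
def Z (θ : ℝ) : ℝ := ∫ u in (0 : ℝ)..1, Real.exp (θ * u)

/-- Real expectations. -/
def E (θ : ℝ) (f : ℝ → ℝ) : ℝ := (∫ u in (0 : ℝ)..1, f u * Real.exp (θ * u)) / Z θ

/-- Complex expectations. -/
def Ec (θ : ℝ) (f : ℝ → ℂ) : ℂ := (∫ u in (0 : ℝ)..1, f u * (Real.exp (θ * u) : ℂ)) / (Z θ : ℂ)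

/-- The mean. -/
def mu (θ : ℝ) : ℝ := E θ fun u => u

/-- The variance. -/
def va (θ : ℝ) : ℝ := E θ fun u => (u - mu θ) ^ 2

/-- The characteristic function. -/
def chi (θ t : ℝ) : ℂ := Ec θ fun u => Complex.exp (Complex.I * ((t * u : ℝ) : ℂ))

theorem Z_pos (θ : ℝ) : 0 < Z θ := by
  unfold Z
  exact intervalIntegral_pos_of_pos_on (by
    apply Continuous.intervalIntegrable
    fun_prop) (fun u _ => Real.exp_pos _) one_pos

theorem Z_ne (θ : ℝ) : Z θ ≠ 0 := (Z_pos θ).ne'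

theorem E_add (θ : ℝ) {f g : ℝ → ℝ} (hf : Continuous f) (hg : Continuous g) :
    E θ (fun u => f u + g u) = E θ f + E θ g := by
  unfold E
  rw [← add_div, ← intervalIntegral.integral_add]
  · congr 2
    funext u
    ring
  · apply Continuous.intervalIntegrable
    fun_prop
  · apply Continuous.intervalIntegrable
    fun_prop

theorem E_smul (θ : ℝ) (c : ℝ) (f : ℝ → ℝ) : E θ (fun u => c * f u) = c * E θ f := by
  unfold E
  rw [← mul_div_assoc, ← intervalIntegral.integral_const_mul]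
  congr 2
  funext u
  ring

theorem E_const (θ : ℝ) (c : ℝ) : E θ (fun _ => c) = c := by
  unfold E
  rw [intervalIntegral.integral_const_mul]
  exact mul_div_cancel_right₀ c (Z_ne θ)

theorem E_mono (θ : ℝ) {f g : ℝ → ℝ} (hf : Continuous f) (hg : Continuous g)
    (h : ∀ u ∈ Icc (0 : ℝ) 1, f u ≤ g u) : E θ f ≤ E θ g := by
  unfold E
  refine div_le_div_of_nonneg_right ?_ (Z_pos θ).le
  refine intervalIntegral.integral_mono_on zero_le_one ?_ ?_ fun u hu => ?_
  · apply Continuous.intervalIntegrable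
    fun_prop
  · apply Continuous.intervalIntegrable
    fun_prop
  · exact mul_le_mul_of_nonneg_right (h u hu) (Real.exp_pos _).le

theorem Ec_norm (θ : ℝ) {f : ℝ → ℂ} {g : ℝ → ℝ} (hf : Continuous f) (hg : Continuous g)
    (h : ∀ u ∈ Icc (0 : ℝ) 1, ‖f u‖ ≤ g u) : ‖Ec θ f‖ ≤ E θ g := by
  unfold Ec E
  rw [norm_div, Complex.norm_real, Real.norm_of_nonneg (Z_pos θ).le]
  refine div_le_div_of_nonneg_right ?_ (Z_pos θ).le
  refine (intervalIntegral.norm_integral_le_integral_norm zero_le_one).trans ?_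
  refine intervalIntegral.integral_mono_on zero_le_one ?_ ?_ fun u hu => ?_
  · apply Continuous.intervalIntegrable
    fun_prop
  · apply Continuous.intervalIntegrable
    fun_prop
  · rw [norm_mul, Complex.norm_real, Real.norm_of_nonneg (Real.exp_pos _).le]
    exact mul_le_mul_of_nonneg_right (h u hu) (Real.exp_pos _).le

theorem Ec_add (θ : ℝ) {f g : ℝ → ℂ} (hf : Continuous f) (hg : Continuous g) :
    Ec θ (fun u => f u + g u) = Ec θ f + Ec θ g := by
  unfold Ec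
  rw [← add_div, ← intervalIntegral.integral_add]
  · congr 2
    funext u
    ring
  · apply Continuous.intervalIntegrable
    fun_prop
  · apply Continuous.intervalIntegrable
    fun_prop

theorem Ec_smul (θ : ℝ) (c : ℂ) (f : ℝ → ℂ) : Ec θ (fun u => c * f u) = c * Ec θ f := by
  unfold Ec
  rw [← mul_div_assoc, ← intervalIntegral.integral_const_mul]
  congr 2
  funext u
  ring

theorem Ec_ofReal (θ : ℝ) (f : ℝ → ℝ) : Ec θ (fun u => (f u : ℂ)) = (E θ f : ℂ) := by
  unfold Ec E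
  rw [Complex.ofReal_div, ← intervalIntegral.integral_ofReal]
  congr 2
  funext u
  push_cast
  ring

theorem Ec_const (θ : ℝ) (c : ℂ) : Ec θ (fun _ => c) = c := by
  have h1 := Ec_smul θ c fun _ => 1
  have h2 := Ec_ofReal θ fun _ => 1
  rw [E_const] at h2
  simp only [Complex.ofReal_one] at h2
  rw [h2] at h1
  simpa using h1

theorem mu_nonneg (θ : ℝ) : 0 ≤ mu θ := by
  rw [← E_const θ 0]
  exact E_mono θ continuous_const continuous_id fun u hu => hu.1

theorem mu_le_one (θ : ℝ) : mu θ ≤ 1 := by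
  rw [← E_const θ 1]
  exact E_mono θ continuous_id continuous_const fun u hu => hu.2

theorem va_nonneg (θ : ℝ) : 0 ≤ va θ := by
  rw [← E_const θ 0]
  exact E_mono θ continuous_const (by fun_prop) fun u hu => sq_nonneg _

theorem va_eq (θ : ℝ) : va θ = E θ (fun u => u ^ 2) - mu θ ^ 2 := by
  have h1 : (fun u : ℝ => (u - mu θ) ^ 2) = fun u => (u ^ 2 + (-2 * mu θ) * u) + mu θ ^ 2 := by
    funext u
    ring
  unfold va
  rw [h1, E_add θ (by fun_prop) (by fun_prop), E_add θ (by fun_prop) (by fun_prop), E_const,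
    E_smul]
  change _ + (-2 * mu θ) * mu θ + _ = _
  ring

theorem va_le (θ : ℝ) : va θ ≤ 1 / 4 := by
  rw [va_eq]
  have h1 : E θ (fun u => u ^ 2) ≤ mu θ :=
    E_mono θ (by fun_prop) continuous_id fun u hu => by nlinarith [hu.1, hu.2]
  nlinarith [sq_nonneg (mu θ - 1 / 2)]

theorem chi_sub_one (θ t : ℝ) : ‖chi θ t - 1‖ ≤ |t| * mu θ := by
  have h1 : chi θ t - 1 = Ec θ fun u => Complex.exp (Complex.I * ((t * u : ℝ) : ℂ)) + (-1) := by
    rw [Ec_add θ (by fun_prop) (by fun_prop), Ec_const]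
    rfl
  have h2 : |t| * mu θ = E θ fun u => |t| * u := (E_smul θ _ _).symm
  rw [h1, h2]
  refine Ec_norm θ (by fun_prop) (by fun_prop) fun u hu => ?_
  rw [← sub_eq_add_neg]
  refine Real.norm_exp_I_mul_ofReal_sub_one_le.trans ?_
  rw [Real.norm_eq_abs, abs_mul, abs_of_nonneg hu.1]

theorem chi_norm (θ t : ℝ) : ‖chi θ t‖ ≤ 1 := by
  have h := Ec_norm θ (f := fun u => Complex.exp (Complex.I * ((t * u : ℝ) : ℂ))) (g := fun _ => 1)
    (by fun_prop) (by fun_prop) fun u _ => by rw [Complex.norm_exp_I_mul_ofReal]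
  rw [E_const] at h
  exact h

/-- Second order remainder. -/
theorem exp_rem2 (v : ℝ) : ‖Complex.exp (Complex.I * v) - 1 - Complex.I * v‖ ≤ 3 * v ^ 2 := by
  rcases le_total |v| 1 with h | h
  · have h1 := Complex.norm_exp_sub_one_sub_id_le (x := Complex.I * v) (by simpa using h)
    refine h1.trans ?_
    have h2 : ‖Complex.I * (v : ℂ)‖ = |v| := by simp
    rw [h2, sq_abs]
    nlinarith [sq_nonneg v]
  · have h1 : ‖Complex.exp (Complex.I * v) - 1 - Complex.I * v‖ ≤ 1 + 1 + |v| := by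
      refine (norm_sub_le _ _).trans (add_le_add ((norm_sub_le _ _).trans ?_) (by simp))
      rw [Complex.norm_exp_I_mul_ofReal, norm_one]
    have h2 : v ^ 2 = |v| ^ 2 := (sq_abs v).symm
    rw [h2]
    nlinarith

/-- Third order remainder. -/
theorem exp_rem3 (v : ℝ) :
    ‖Complex.exp (Complex.I * v) - 1 - Complex.I * v + (v : ℂ) ^ 2 / 2‖ ≤ 4 * |v| ^ 3 := by
  rcases le_total |v| 1 with h | h
  · have h1 := Complex.exp_bound (x := Complex.I * v) (by simpa using h) (n := 3) (by norm_num)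
    have h2 : ‖Complex.I * (v : ℂ)‖ = |v| := by simp
    have h3 : Complex.exp (Complex.I * v) - 1 - Complex.I * v + (v : ℂ) ^ 2 / 2 =
        Complex.exp (Complex.I * v) - ∑ m ∈ Finset.range 3, (Complex.I * v) ^ m / (m.factorial : ℂ) := by
      rw [Finset.sum_range_succ, Finset.sum_range_succ, Finset.sum_range_one]
      simp only [pow_zero, Nat.factorial, mul_pow, Complex.I_sq]
      push_cast
      ring
    rw [h3]
    refine h1.trans ?_
    rw [h2]
    have h4 : (0 : ℝ) ≤ |v| ^ 3 := by positivity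
    norm_num [Nat.factorial]
    nlinarith
  · have h1 : ‖Complex.exp (Complex.I * v) - 1 - Complex.I * v + (v : ℂ) ^ 2 / 2‖ ≤
        1 + 1 + |v| + |v| ^ 2 / 2 := by
      refine (norm_add_le _ _).trans (add_le_add ((norm_sub_le _ _).trans
        (add_le_add ((norm_sub_le _ _).trans ?_) (by simp))) (by simp))
      rw [Complex.norm_exp_I_mul_ofReal, norm_one]
    have h2 : (1 : ℝ) ≤ |v| ^ 2 := one_le_pow₀ h
    have h3 : |v| ≤ |v| ^ 3 := by nlinarith
    have h4 : |v| ^ 2 ≤ |v| ^ 3 := by nlinarith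
    nlinarith

theorem chi_rem2 (θ t : ℝ) : ‖chi θ t - 1 - Complex.I * (t * mu θ : ℝ)‖ ≤ 3 * t ^ 2 * mu θ := by
  have h1 : chi θ t - 1 - Complex.I * (t * mu θ : ℝ) =
      Ec θ fun u => (Complex.exp (Complex.I * ((t * u : ℝ) : ℂ)) + (-1)) +
        (-Complex.I * t) * (u : ℂ) := by
    rw [Ec_add θ (by fun_prop) (by fun_prop), Ec_add θ (by fun_prop) (by fun_prop), Ec_const,
      Ec_smul, Ec_ofReal θ fun u => u]
    change _ = chi θ t + -1 + (-Complex.I * t) * (mu θ : ℂ)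
    push_cast
    ring
  have h2 : 3 * t ^ 2 * mu θ = E θ fun u => (3 * t ^ 2) * u := (E_smul θ _ _).symm
  rw [h1, h2]
  refine Ec_norm θ (by fun_prop) (by fun_prop) fun u hu => ?_
  have h3 := exp_rem2 (t * u)
  have h4 : Complex.exp (Complex.I * ((t * u : ℝ) : ℂ)) + (-1) + (-Complex.I * t) * (u : ℂ) =
      Complex.exp (Complex.I * ((t * u : ℝ) : ℂ)) - 1 - Complex.I * ((t * u : ℝ) : ℂ) := by
    push_cast
    ring
  rw [h4]
  refine h3.trans ?_
  have h5 : u ^ 2 ≤ u := by nlinarith [hu.1, hu.2]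
  have h6 : (0 : ℝ) ≤ 3 * t ^ 2 := by positivity
  calc 3 * (t * u) ^ 2 = 3 * t ^ 2 * u ^ 2 := by ring
    _ ≤ 3 * t ^ 2 * u := mul_le_mul_of_nonneg_left h5 h6

/-- The centred characteristic function. -/
theorem chi_rem3 (θ t : ℝ) :
    ‖chi θ t * Complex.exp (Complex.I * (-(t * mu θ) : ℝ)) - (1 - (t ^ 2 * va θ / 2 : ℝ))‖ ≤
      4 * |t| ^ 3 * va θ := by
  have h0 : chi θ t * Complex.exp (Complex.I * (-(t * mu θ) : ℝ)) =
      Ec θ fun u => Complex.exp (Complex.I * ((t * (u - mu θ) : ℝ) : ℂ)) := by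
    unfold chi
    rw [mul_comm, ← Ec_smul]
    congr 1
    funext u
    rw [← Complex.exp_add]
    congr 1
    push_cast
    ring
  have hE1 : E θ (fun u => u - mu θ) = 0 := by
    have h1 := E_add θ (f := fun u => u) (g := fun _ => -mu θ) continuous_id continuous_const
    rw [E_const] at h1
    change E θ (fun u => u + -mu θ) = mu θ + -mu θ at h1
    rw [add_neg_cancel] at h1
    exact h1
  have h1 : Ec θ (fun u => Complex.exp (Complex.I * ((t * (u - mu θ) : ℝ) : ℂ))) -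
      (1 - (t ^ 2 * va θ / 2 : ℝ)) =
      Ec θ fun u => ((Complex.exp (Complex.I * ((t * (u - mu θ) : ℝ) : ℂ)) + (-1)) +
        (-Complex.I * t) * ((u - mu θ : ℝ) : ℂ)) + ((t ^ 2 / 2 : ℝ) : ℂ) * (((u - mu θ) ^ 2 : ℝ) : ℂ) := by
    rw [Ec_add θ (by fun_prop) (by fun_prop), Ec_add θ (by fun_prop) (by fun_prop),
      Ec_add θ (by fun_prop) (by fun_prop), Ec_const, Ec_smul, Ec_smul,
      Ec_ofReal θ fun u => u - mu θ, Ec_ofReal θ fun u => (u - mu θ) ^ 2, hE1]
    change _ = _ + -1 + (-Complex.I * t) * ((0 : ℝ) : ℂ) + ((t ^ 2 / 2 : ℝ) : ℂ) * (va θ : ℂ)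
    push_cast
    ring
  have h2 : 4 * |t| ^ 3 * va θ = E θ fun u => (4 * |t| ^ 3) * (u - mu θ) ^ 2 := (E_smul θ _ _).symm
  rw [h0, h1, h2]
  refine Ec_norm θ (by fun_prop) (by fun_prop) fun u hu => ?_
  have h3 := exp_rem3 (t * (u - mu θ))
  have h4 : Complex.exp (Complex.I * ((t * (u - mu θ) : ℝ) : ℂ)) + (-1) +
      (-Complex.I * t) * ((u - mu θ : ℝ) : ℂ) + ((t ^ 2 / 2 : ℝ) : ℂ) * (((u - mu θ) ^ 2 : ℝ) : ℂ) =
      Complex.exp (Complex.I * ((t * (u - mu θ) : ℝ) : ℂ)) - 1 -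
        Complex.I * ((t * (u - mu θ) : ℝ) : ℂ) + (((t * (u - mu θ) : ℝ)) : ℂ) ^ 2 / 2 := by
    push_cast
    ring
  rw [h4]
  refine h3.trans ?_
  have h5 : |u - mu θ| ≤ 1 := by
    rw [abs_le]
    constructor
    · linarith [hu.1, mu_le_one θ]
    · linarith [hu.2, mu_nonneg θ]
  have h6 : |u - mu θ| ^ 3 ≤ (u - mu θ) ^ 2 := by
    rw [← sq_abs (u - mu θ)]
    nlinarith [sq_nonneg (|u - mu θ|)]
  calc 4 * |t * (u - mu θ)| ^ 3 = 4 * |t| ^ 3 * |u - mu θ| ^ 3 := by rw [abs_mul, mul_pow]; ring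
    _ ≤ 4 * |t| ^ 3 * (u - mu θ) ^ 2 := mul_le_mul_of_nonneg_left h6 (by positivity)

end Pool.Agent.BrentiBulk
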