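import Pool.Agent.BrentiBulk.Tilt

/-!
# The tilted uniform distribution: variance bounds, existence of the tilt, decay of `chi`
-/

set_option autoImplicit false

noncomputable section

namespace Pool.Agent.BrentiBulk

open MeasureTheory intervalIntegral Set Filter Topology

theorem ftc (θ : ℝ) (p p' : ℝ → ℝ) (hp : ∀ u, HasDerivAt p (p' u) u) (hc : Continuous p') :
    ∫ u in (0 : ℝ)..1, (p' u + θ * p u) * Real.exp (θ * u) = p 1 * Real.exp θ - p 0 := by
  have hpc : Continuous p := continuous_iff_continuousAt.2 fun u => (hp u).continuousAt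
  have h1 : ∀ u, HasDerivAt (fun u => p u * Real.exp (θ * u))
      ((p' u + θ * p u) * Real.exp (θ * u)) u := by
    intro u
    have h2 : HasDerivAt (fun u : ℝ => Real.exp (θ * u)) (Real.exp (θ * u) * (θ * 1)) u :=
      ((hasDerivAt_id u).const_mul θ).exp
    have h3 := (hp u).mul h2
    refine h3.congr_deriv ?_
    ring
  rw [intervalIntegral.integral_eq_sub_of_hasDerivAt (fun u _ => h1 u)
    (by apply Continuous.intervalIntegrable; fun_prop)]
  simp

theorem E_eq (θ : ℝ) (f : ℝ → ℝ) : E θ f * Z θ = ∫ u in (0 : ℝ)..1, f u * Real.exp (θ * u) := by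
  unfold E
  exact div_mul_cancel₀ _ (Z_ne θ)

theorem ftcE (θ : ℝ) (p p' : ℝ → ℝ) (hp : ∀ u, HasDerivAt p (p' u) u) (hc : Continuous p') :
    (E θ p' + θ * E θ p) * Z θ = p 1 * Real.exp θ - p 0 := by
  have hpc : Continuous p := continuous_iff_continuousAt.2 fun u => (hp u).continuousAt
  rw [← ftc θ p p' hp hc, ← E_eq θ fun u => p' u + θ * p u, E_add θ hc (by fun_prop), E_smul]

theorem va_neg {θ : ℝ} (hθ : θ ≤ 0) : mu θ ^ 2 ≤ 3 * va θ := by
  set c : ℝ := 2 * mu θ with hc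
  have h1 := ftcE θ (fun u => u * (u - c) ^ 2) (fun u => 3 * u ^ 2 + ((-4 * c) * u + c ^ 2))
    (fun u => by
      have h2 := (hasDerivAt_id' u).mul (((hasDerivAt_id' u).sub_const c).pow 2)
      refine h2.congr_deriv ?_
      simp
      ring) (by fun_prop)
  have h2 : 0 ≤ E θ (fun u => u * (u - c) ^ 2) := by
    rw [← E_const θ 0]
    exact E_mono θ continuous_const (by fun_prop) fun u hu => mul_nonneg hu.1 (sq_nonneg _)
  have h3 : 0 ≤ E θ (fun u => 3 * u ^ 2 + ((-4 * c) * u + c ^ 2)) := by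
    have h4 : 0 ≤ 1 * (1 - c) ^ 2 * Real.exp θ - 0 * (0 - c) ^ 2 := by
      have := mul_nonneg (sq_nonneg (1 - c)) (Real.exp_pos θ).le
      linarith
    rw [← h1] at h4
    have h5 := nonneg_of_mul_nonneg_left h4 (Z_pos θ)
    have h6 : θ * E θ (fun u => u * (u - c) ^ 2) ≤ 0 := mul_nonpos_of_nonpos_of_nonneg hθ h2
    linarith
  rw [E_add θ (by fun_prop) (by fun_prop), E_add θ (by fun_prop) (by fun_prop), E_const, E_smul,
    E_smul] at h3
  rw [va_eq]
  change 0 ≤ 3 * E θ (fun u => u ^ 2) + ((-4 * c) * mu θ + c ^ 2) at h3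
  rw [hc] at h3
  nlinarith

theorem E_one_sub (θ : ℝ) : E θ (fun u => 1 - u) = 1 - mu θ := by
  have h1 := E_add θ (f := fun _ => 1) (g := fun u => (-1) * u) continuous_const (by fun_prop)
  rw [E_const, E_smul] at h1
  change _ = 1 + (-1) * mu θ at h1
  have h2 : (fun u : ℝ => 1 - u) = fun u => 1 + (-1) * u := by
    funext u
    ring
  rw [h2, h1]
  ring

theorem va_pos' {θ : ℝ} (hθ : 0 ≤ θ) : (1 - mu θ) ^ 2 ≤ 3 * va θ := by
  set c : ℝ := 2 * (1 - mu θ) with hc
  have h1 := ftcE θ (fun u => (1 - u) * (1 - u - c) ^ 2)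
    (fun u => (-3) * (1 - u) ^ 2 + ((4 * c) * (1 - u) + (-(c ^ 2))))
    (fun u => by
      have h2 := ((hasDerivAt_id' u).const_sub 1).mul
        ((((hasDerivAt_id' u).const_sub 1).sub_const c).pow 2)
      refine h2.congr_deriv ?_
      simp
      ring) (by fun_prop)
  have h2 : 0 ≤ E θ (fun u => (1 - u) * (1 - u - c) ^ 2) := by
    rw [← E_const θ 0]
    exact E_mono θ continuous_const (by fun_prop) fun u hu =>
      mul_nonneg (by linarith [hu.2]) (sq_nonneg _)
  have h3 : E θ (fun u => (-3) * (1 - u) ^ 2 + ((4 * c) * (1 - u) + (-(c ^ 2)))) ≤ 0 := by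
    have h4 : (1 - 1) * (1 - 1 - c) ^ 2 * Real.exp θ - (1 - 0) * (1 - 0 - c) ^ 2 ≤ 0 := by
      nlinarith [sq_nonneg (1 - c)]
    rw [← h1] at h4
    have h5 : E θ (fun u => (-3) * (1 - u) ^ 2 + ((4 * c) * (1 - u) + (-(c ^ 2)))) +
        θ * E θ (fun u => (1 - u) * (1 - u - c) ^ 2) ≤ 0 := by
      by_contra h6
      exact absurd (mul_pos (not_le.1 h6) (Z_pos θ)) (not_lt.2 h4)
    have h6 : 0 ≤ θ * E θ (fun u => (1 - u) * (1 - u - c) ^ 2) := mul_nonneg hθ h2
    linarith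
  have h7 : E θ (fun u => (1 - u) ^ 2) = 1 + (-2) * mu θ + E θ (fun u => u ^ 2) := by
    have h8 : (fun u : ℝ => (1 - u) ^ 2) = fun u => (1 + (-2) * u) + u ^ 2 := by
      funext u
      ring
    rw [h8, E_add θ (by fun_prop) (by fun_prop), E_add θ (by fun_prop) (by fun_prop), E_const,
      E_smul]
    rfl
  rw [E_add θ (by fun_prop) (by fun_prop), E_add θ (by fun_prop) (by fun_prop), E_const, E_smul,
    E_smul, E_one_sub, h7] at h3
  rw [va_eq]
  rw [hc] at h3
  nlinarith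

theorem mu_le_inv {θ : ℝ} (hθ : θ < 0) : mu θ ≤ 1 / (-θ) := by
  have h1 := ftcE θ (fun u => u) (fun _ => 1) (fun u => hasDerivAt_id' u) continuous_const
  rw [E_const] at h1
  change (1 + θ * mu θ) * Z θ = 1 * Real.exp θ - 0 at h1
  have h2 : 0 ≤ 1 + θ * mu θ := by
    have h3 : 0 ≤ (1 + θ * mu θ) * Z θ := by
      rw [h1]
      have := Real.exp_pos θ
      linarith
    exact nonneg_of_mul_nonneg_left h3 (Z_pos θ)
  rw [le_div_iff₀ (by linarith)]
  linarith

theorem one_sub_mu_le_inv {θ : ℝ} (hθ : 0 < θ) : 1 - mu θ ≤ 1 / θ := by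
  have h1 := ftcE θ (fun u => 1 - u) (fun _ => -1) (fun u => (hasDerivAt_id' u).const_sub 1)
    continuous_const
  rw [E_const, E_one_sub] at h1
  have h2 : -1 + θ * (1 - mu θ) ≤ 0 := by
    by_contra h3
    have h4 := mul_pos (not_le.1 h3) (Z_pos θ)
    rw [h1] at h4
    norm_num at h4
  rw [le_div_iff₀ hθ]
  linarith

theorem continuous_mu : Continuous mu := by
  unfold mu E Z
  refine Continuous.div ?_ ?_ fun θ => Z_ne θ
  · exact intervalIntegral.continuous_parametric_intervalIntegral_of_continuous'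
      (by fun_prop) _ _
  · exact intervalIntegral.continuous_parametric_intervalIntegral_of_continuous'
      (by fun_prop) _ _

theorem exists_mu {x : ℝ} (h0 : 0 < x) (h1 : x < 1) : ∃ θ, mu θ = x := by
  have ha : mu (-(1 / x)) ≤ x := by
    have h2 := mu_le_inv (θ := -(1 / x)) (by simpa using h0)
    rwa [neg_neg, one_div_one_div] at h2
  have hb : x ≤ mu (1 / (1 - x)) := by
    have h2 := one_sub_mu_le_inv (θ := 1 / (1 - x)) (by
      rw [one_div]
      exact inv_pos.2 (by linarith))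
    rw [one_div_one_div] at h2
    linarith
  have h2 := mem_range_of_exists_le_of_exists_ge continuous_mu ⟨_, ha⟩ ⟨_, hb⟩
  exact h2

theorem sinc_ineq (u : ℝ) : Real.sin u ^ 2 * (1 + u ^ 2 / 10) ≤ u ^ 2 := by
  have h0 : Real.sin u ^ 2 ≤ 1 := Real.sin_sq_le_one u
  have h1 : Real.sin u ^ 2 = Real.sin |u| ^ 2 := by
    rcases le_total 0 u with h | h
    · rw [abs_of_nonneg h]
    · rw [abs_of_nonpos h, Real.sin_neg, neg_sq]
  have h2 : u ^ 2 = |u| ^ 2 := (sq_abs u).symm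
  rw [h1] at h0 ⊢
  rw [h2]
  set v := |u| with hv
  have hv0 : 0 ≤ v := abs_nonneg u
  rcases le_total v 1 with h | h
  · have h3 := Real.sin_bound (x := v) (by rwa [abs_of_nonneg hv0])
    rw [abs_of_nonneg hv0] at h3
    have h4 := (abs_le.1 h3).2
    have h5 : Real.sin v ≤ v * (1 - 11 * v ^ 2 / 96) := by nlinarith [pow_nonneg hv0 3, pow_nonneg hv0 4]
    have h6 : 0 ≤ Real.sin v := Real.sin_nonneg_of_nonneg_of_le_pi hv0 (by
      linarith [Real.pi_gt_three])
    have h7 : Real.sin v ^ 2 ≤ (v * (1 - 11 * v ^ 2 / 96)) ^ 2 := pow_le_pow_left₀ h6 h5 2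
    have h8 : (1 - 11 * v ^ 2 / 96) ^ 2 * (1 + v ^ 2 / 10) ≤ 1 := by
      have h9 : v ^ 2 ≤ 1 := by nlinarith
      have h10 : 0 ≤ v ^ 2 := sq_nonneg v
      nlinarith [mul_nonneg h10 h10, mul_nonneg h10 (mul_nonneg h10 h10)]
    calc Real.sin v ^ 2 * (1 + v ^ 2 / 10) ≤ (v * (1 - 11 * v ^ 2 / 96)) ^ 2 * (1 + v ^ 2 / 10) :=
          mul_le_mul_of_nonneg_right h7 (by positivity)
      _ = v ^ 2 * ((1 - 11 * v ^ 2 / 96) ^ 2 * (1 + v ^ 2 / 10)) := by ring
      _ ≤ v ^ 2 * 1 := mul_le_mul_of_nonneg_left h8 (sq_nonneg v)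
      _ = v ^ 2 := mul_one _
  · rcases le_total (10 / 9) (v ^ 2) with h' | h'
    · nlinarith [sq_nonneg (Real.sin v)]
    · -- `1 ≤ v`, `v² ≤ 10/9`
      have hv1 : v ≤ 1.0542 := by nlinarith
      have h3 : Real.sin v - Real.sin 1 ≤ v - 1 := by
        have h4 : |Real.sin v - Real.sin 1| ≤ |v - 1| := by
          have := Real.abs_sin_sub_sin_le (x := v) (y := 1)
          exact this
        exact (le_abs_self _).trans (h4.trans (by rw [abs_of_nonneg (by linarith)]))
      have h4 := Real.sin_bound (x := 1) (by simp)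
      have h5 := (abs_le.1 h4).2
      have h6 : Real.sin v ≤ 0.94 := by norm_num at h5; linarith
      have h7 : 0 ≤ Real.sin v := Real.sin_nonneg_of_nonneg_of_le_pi hv0 (by
        linarith [Real.pi_gt_three])
      have h8 : Real.sin v ^ 2 ≤ 0.94 ^ 2 := pow_le_pow_left₀ h7 h6 2
      have h9 : 1 ≤ v ^ 2 := by nlinarith
      nlinarith

end Pool.Agent.BrentiBulk
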