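import Pool.Agent.BrentiRegion.Euler

/-!
# The identity of Worpitzky and bounds for the Eulerian numbers near the border
-/

set_option autoImplicit false

namespace Pool.Agent.BrentiBulk

open Finset Pool.Agent.BrentiRegion

theorem F_vanish' (n k : ℕ) (hn : 1 ≤ n) (h : n ≤ k) : F n k = 0 := by
  obtain ⟨n, rfl⟩ : ∃ a, n = a + 1 := ⟨n - 1, by omega⟩
  obtain ⟨k, rfl⟩ : ∃ a, k = a + 1 := ⟨k - 1, by omega⟩
  exact F_vanish n k (by omega)

theorem F_nonneg (n : ℕ) : ∀ k, 0 ≤ F n k := by
  induction n with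
  | zero =>
    intro k
    rw [F_zero]
    split_ifs <;> norm_num
  | succ n ih =>
    intro k
    rcases k with _ | k
    · rw [F_col]
      exact zero_le_one
    · rw [F_succ]
      have h1 := ih (k + 1)
      have h2 := ih k
      rcases Nat.lt_or_ge n k with h | h
      · rcases Nat.eq_zero_or_pos n with h0 | h0
        · subst h0
          rw [F_zero k, if_neg (by omega), mul_zero, add_zero]
          positivity
        · rw [F_vanish' n k h0 h.le, mul_zero, add_zero]
          positivity
      · have h3 : (0 : ℤ) ≤ (n : ℤ) - k := by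
          have : (k : ℤ) ≤ n := by exact_mod_cast h
          linarith
        positivity

/-- The identity of Worpitzky. -/
theorem worpitzky (n : ℕ) : ∀ p : ℕ,
    ∑ q ∈ range (p + 1), F n q * ((n + (p - q)).choose n : ℤ) = ((p : ℤ) + 1) ^ n := by
  induction n with
  | zero =>
    intro p
    rw [Finset.sum_eq_single 0]
    · simp [F_zero]
    · intro q _ hq
      rw [F_zero, if_neg hq, zero_mul]
    · intro h
      exact absurd (Finset.mem_range.2 (Nat.succ_pos p)) h
  | succ n ih =>
    intro p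
    -- split the sum
    have h1 : ∀ q ∈ range p, F (n + 1) (q + 1) * ((n + 1 + (p - (q + 1))).choose (n + 1) : ℤ) =
        (((q + 1 : ℕ) : ℤ) + 1) * F n (q + 1) * ((n + 1 + (p - (q + 1))).choose (n + 1) : ℤ) +
        ((n : ℤ) - q) * F n q * ((n + 1 + (p - (q + 1))).choose (n + 1) : ℤ) := by
      intro q _
      rw [F_succ]
      push_cast
      ring
    have h2 : ∑ q ∈ range (p + 1), F (n + 1) q * ((n + 1 + (p - q)).choose (n + 1) : ℤ) =
        ∑ q ∈ range (p + 1), ((q : ℤ) + 1) * F n q * ((n + 1 + (p - q)).choose (n + 1) : ℤ) +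
        ∑ q ∈ range p, ((n : ℤ) - q) * F n q * ((n + 1 + (p - (q + 1))).choose (n + 1) : ℤ) := by
      rw [Finset.sum_range_succ', Finset.sum_congr rfl h1, Finset.sum_add_distrib,
        Finset.sum_range_succ' (fun q => ((q : ℤ) + 1) * F n q *
          ((n + 1 + (p - q)).choose (n + 1) : ℤ)), F_col, F_col]
      push_cast
      ring
    have h3 : ∑ q ∈ range p, ((n : ℤ) - q) * F n q * ((n + 1 + (p - (q + 1))).choose (n + 1) : ℤ) =
        ∑ q ∈ range (p + 1), ((n : ℤ) - q) * F n q * ((n + (p - q)).choose (n + 1) : ℤ) := by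
      rw [Finset.sum_range_succ, Nat.sub_self, add_zero, Nat.choose_succ_self, Nat.cast_zero,
        mul_zero, add_zero]
      refine Finset.sum_congr rfl fun q hq => ?_
      have hq' := Finset.mem_range.1 hq
      rw [show n + 1 + (p - (q + 1)) = n + (p - q) by omega]
    rw [h2, h3, ← Finset.sum_add_distrib, pow_succ, ← ih p, Finset.sum_mul]
    refine Finset.sum_congr rfl fun q hq => ?_
    have hq' := Finset.mem_range.1 hq
    obtain ⟨s, rfl⟩ : ∃ s, p = q + s := ⟨p - q, by omega⟩
    rw [Nat.add_sub_cancel_left]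
    have e1 : ((n + s + 1).choose (n + 1) : ℤ) * (n + 1) = (n + s).choose n * (n + s + 1) := by
      have := Nat.add_one_mul_choose_eq (n + s) n
      have h : ((n + s + 1).choose (n + 1) * (n + 1) : ℕ) = (n + s).choose n * (n + s + 1) := by
        rw [mul_comm ((n + s).choose n)]
        exact this.symm
      exact_mod_cast h
    have e2 : ((n + s).choose (n + 1) : ℤ) * (n + 1) = (n + s).choose n * s := by
      have := choose_id (n + s) n
      rw [this]
      push_cast
      ring
    rw [show n + 1 + s = n + s + 1 by ring]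
    have hn : ((n : ℤ) + 1) ≠ 0 := by positivity
    apply mul_right_cancel₀ hn
    push_cast
    linear_combination ((q : ℤ) + 1) * F n q * e1 + ((n : ℤ) - q) * F n q * e2

theorem F_le_pow (n p : ℕ) : F n p ≤ ((p : ℤ) + 1) ^ n := by
  rw [← worpitzky n p, Finset.sum_range_succ, Nat.sub_self, add_zero, Nat.choose_self,
    Nat.cast_one, mul_one]
  have : 0 ≤ ∑ q ∈ range p, F n q * ((n + (p - q)).choose n : ℤ) :=
    Finset.sum_nonneg fun q _ => mul_nonneg (F_nonneg n q) (Nat.cast_nonneg _)
  linarith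

theorem choose_step (n s : ℕ) : (n + (s + 1)).choose n ≤ (n + 1) * (n + s).choose n := by
  have h1 := Nat.choose_mul_succ_eq (n + s) n
  have h2 : n + s + 1 - n = s + 1 := by omega
  rw [h2] at h1
  have h3 : (n + (s + 1)).choose n * (s + 1) ≤ (n + 1) * (n + s).choose n * (s + 1) := by
    rw [show n + (s + 1) = n + s + 1 by ring, ← h1]
    calc (n + s).choose n * (n + s + 1) ≤ (n + s).choose n * ((n + 1) * (s + 1)) :=
          Nat.mul_le_mul_left _ (by nlinarith)
      _ = _ := by ring
  exact Nat.le_of_mul_le_mul_right h3 (Nat.succ_pos s)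

theorem pow_sub_le_F (n p : ℕ) : ((p : ℤ) + 2) ^ n - ((n : ℤ) + 1) * ((p : ℤ) + 1) ^ n ≤
    F n (p + 1) := by
  have h1 := worpitzky n (p + 1)
  rw [Finset.sum_range_succ, Nat.sub_self, add_zero, Nat.choose_self, Nat.cast_one, mul_one] at h1
  have h2 : ∑ q ∈ range (p + 1), F n q * ((n + (p + 1 - q)).choose n : ℤ) ≤
      ((n : ℤ) + 1) * ((p : ℤ) + 1) ^ n := by
    rw [← worpitzky n p, Finset.mul_sum]
    refine Finset.sum_le_sum fun q hq => ?_
    have hq' := Finset.mem_range.1 hq
    obtain ⟨s, rfl⟩ : ∃ s, p = q + s := ⟨p - q, by omega⟩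
    rw [show q + s + 1 - q = s + 1 by omega, Nat.add_sub_cancel_left]
    have h3 : ((n + (s + 1)).choose n : ℤ) ≤ ((n : ℤ) + 1) * ((n + s).choose n : ℤ) := by
      exact_mod_cast choose_step n s
    calc F n q * ((n + (s + 1)).choose n : ℤ) ≤
          F n q * (((n : ℤ) + 1) * ((n + s).choose n : ℤ)) :=
          mul_le_mul_of_nonneg_left h3 (F_nonneg n q)
      _ = _ := by ring
  have h4 : (((p + 1 : ℕ) : ℤ) + 1) ^ n = ((p : ℤ) + 2) ^ n := by
    push_cast
    ring
  rw [h4] at h1
  linarith

end Pool.Agent.BrentiBulk
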